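import Mathlib

/-!
# Sauer-Shelah bounds for Boolean matrices
-/

open Finset

namespace GHDRace

/-- a set of columns shattered by the rows -/
def Shat {α β : Type*} (A : α → β → Bool) (S : Finset β) : Prop :=
  ∀ B ⊆ S, ∃ x, ∀ y ∈ S, (A x y = true ↔ y ∈ B)

lemma sum_choose_le (T d : ℕ) : ∑ i ∈ Finset.Iic d, T.choose i ≤ (T + 1) ^ d := by
  rw [add_pow]
  have h : Finset.Iic d = Finset.range (d + 1) := by
    ext i; simp [Nat.lt_succ_iff]
  rw [h]
  refine Finset.sum_le_sum fun i hi => ?_
  have hi' : i ≤ d := Nat.lt_succ_iff.1 (Finset.mem_range.1 hi)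
  rw [one_pow, mul_one, Nat.cast_id]
  calc T.choose i ≤ T ^ i := Nat.choose_le_pow T i
    _ = T ^ i * 1 := (mul_one _).symm
    _ ≤ _ := Nat.mul_le_mul_left _ (Nat.choose_pos hi')

/-- **Sauer-Shelah** for the numbers of distinct rows and columns. -/
theorem sauer {α β : Type*} [Fintype α] [Fintype β] [DecidableEq α] [DecidableEq β]
    (A : α → β → Bool) (d : ℕ) (h : ∀ S : Finset β, Shat A S → S.card ≤ d) :
    (univ.image A).card ≤ ((univ.image fun (y : β) (x : α) => A x y).card + 1) ^ d := by
  classical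
  set 𝒞 := univ.image fun (y : β) (x : α) => A x y with h𝒞
  have hchoose : ∀ c : {c // c ∈ 𝒞}, ∃ y, (fun x => A x y) = c.val := by
    intro c
    obtain ⟨y, _, hy⟩ := Finset.mem_image.1 c.2
    exact ⟨y, hy⟩
  choose yc hyc using hchoose
  have hyinj : Function.Injective yc := by
    intro c c' hcc
    apply Subtype.ext
    rw [← hyc c, ← hyc c', hcc]
  let cls : β → {c // c ∈ 𝒞} := fun y => ⟨fun x => A x y, Finset.mem_image_of_mem _ (mem_univ y)⟩
  let 𝒜 : Finset (Finset {c // c ∈ 𝒞}) := univ.image fun x : α =>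
    univ.filter fun c : {c // c ∈ 𝒞} => c.val x = true
  let F : Finset {c // c ∈ 𝒞} → (β → Bool) := fun s y => decide (cls y ∈ s)
  have h1 : univ.image A ⊆ 𝒜.image F := by
    intro r hr
    obtain ⟨x, _, rfl⟩ := Finset.mem_image.1 hr
    refine Finset.mem_image.2 ⟨_, Finset.mem_image_of_mem _ (mem_univ x), ?_⟩
    funext y
    simp only [F, cls, mem_filter, mem_univ, true_and]
    cases A x y <;> simp
  have h2 : (univ.image A).card ≤ 𝒜.card :=
    (Finset.card_le_card h1).trans Finset.card_image_le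
  have h3 : 𝒜.vcDim ≤ d := by
    refine Finset.sup_le fun s hs => ?_
    rw [Finset.mem_shatterer] at hs
    have h4 : Shat A (s.image yc) := by
      intro B hB
      obtain ⟨t, ht, hts⟩ := hs (t := s.filter fun c => yc c ∈ B) (Finset.filter_subset _ _)
      obtain ⟨x, _, rfl⟩ := Finset.mem_image.1 ht
      refine ⟨x, ?_⟩
      intro y hy
      obtain ⟨c, hc, rfl⟩ := Finset.mem_image.1 hy
      have h5 : A x (yc c) = c.val x := congrFun (hyc c) x
      rw [h5]
      have h6 := Finset.ext_iff.1 hts c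
      simp only [mem_inter, mem_filter, mem_univ, true_and, hc] at h6
      exact h6
    have h7 := h _ h4
    rwa [Finset.card_image_of_injective _ hyinj] at h7
  have h4 := (𝒜.card_le_card_shatterer.trans 𝒜.card_shatterer_le_sum_vcDim)
  have h5 : ∑ k ∈ Finset.Iic 𝒜.vcDim, (Fintype.card {c // c ∈ 𝒞}).choose k ≤
      ∑ k ∈ Finset.Iic d, (Fintype.card {c // c ∈ 𝒞}).choose k :=
    Finset.sum_le_sum_of_subset (Finset.Iic_subset_Iic.2 h3)
  have h6 := sum_choose_le (Fintype.card {c // c ∈ 𝒞}) d
  rw [Fintype.card_coe] at h4 h5 h6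
  exact h2.trans (h4.trans (h5.trans h6))

/-- the dual dimension -/
theorem dual_vc {α β : Type*} [Fintype α] [Fintype β] [DecidableEq α] [DecidableEq β]
    (A : α → β → Bool) (d : ℕ) (h : ∀ S : Finset β, Shat A S → S.card ≤ d)
    (S : Finset α) (hS : Shat (fun y x => A x y) S) : S.card ≤ 2 ^ (d + 1) := by
  classical
  by_contra hcon
  push Not at hcon
  have hcard : Fintype.card (Fin (d + 1) → Bool) ≤ Fintype.card {x // x ∈ S} := by
    rw [Fintype.card_fun, Fintype.card_bool, Fintype.card_fin, Fintype.card_coe]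
    exact hcon.le
  obtain ⟨e⟩ := Function.Embedding.nonempty_of_card_le hcard
  have hy : ∀ j : Fin (d + 1), ∃ y, ∀ b : Fin (d + 1) → Bool, A (e b) y = b j := by
    intro j
    obtain ⟨y, hy⟩ := hS (S.filter fun x => ∃ b : Fin (d + 1) → Bool, (e b : α) = x ∧ b j = true)
      (Finset.filter_subset _ _)
    refine ⟨y, fun b => ?_⟩
    have h1 := hy (e b) (e b).2
    have h2 : ((e b : α) ∈ S.filter fun x => ∃ b : Fin (d + 1) → Bool, (e b : α) = x ∧
        b j = true) ↔ b j = true := by
      rw [mem_filter]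
      constructor
      · rintro ⟨_, b', hb', h3⟩
        have : b' = b := e.injective (Subtype.ext hb')
        rwa [this] at h3
      · intro h3
        exact ⟨(e b).2, b, rfl, h3⟩
    rw [h2] at h1
    cases hb : b j <;> cases hA : A (e b) y <;> simp_all
  choose y hy using hy
  have hinj : Function.Injective y := by
    intro j l hjl
    by_contra hne
    have h1 := hy j (fun i => decide (i = j))
    have h2 := hy l (fun i => decide (i = j))
    rw [hjl, h2] at h1
    simp [Ne.symm hne] at h1
  have hshat : Shat A (univ.image y) := by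
    intro B _
    refine ⟨e fun j => decide (y j ∈ B), ?_⟩
    intro z hz
    obtain ⟨j, _, rfl⟩ := Finset.mem_image.1 hz
    rw [hy j]
    simp
  have := h _ hshat
  rw [Finset.card_image_of_injective _ hinj, Finset.card_univ, Fintype.card_fin] at this
  omega

/-- columns in terms of rows -/
theorem sauer_dual {α β : Type*} [Fintype α] [Fintype β] [DecidableEq α] [DecidableEq β]
    (A : α → β → Bool) (d : ℕ) (h : ∀ S : Finset β, Shat A S → S.card ≤ d) :
    (univ.image fun (y : β) (x : α) => A x y).card ≤ ((univ.image A).card + 1) ^ (2 ^ (d + 1)) :=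
  sauer (fun (y : β) (x : α) => A x y) (2 ^ (d + 1)) (dual_vc A d h)

end GHDRace
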