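import Pool.Agent.Lib.BalShift.BU

/-!
# The Borsuk-Ulam theorem on the boundary of the cross-polytope
-/

open Finset BalShift

namespace GHDRace

/-- full transversals -/
def Tr (m : ℕ) (s : Finset (Fin (m + 2) × Bool)) : Prop :=
  Set.InjOn Prod.fst (s : Set (Fin (m + 2) × Bool)) ∧ s.card = m + 2

open Classical in
/-- the fundamental cycle of the cross-polytope -/
noncomputable def cyc (m : ℕ) (s : Finset (Fin (m + 2) × Bool)) : ZMod 2 :=
  if Tr m s then 1 else 0

lemma tr_flip {m : ℕ} (s : Finset (Fin (m + 2) × Bool)) :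
    Tr m (s.map (flipE (Fin (m + 2))).toEmbedding) ↔ Tr m s := by
  unfold Tr
  rw [Finset.card_map]
  refine and_congr_left fun _ => ?_
  constructor
  · intro h x hx y hy hxy
    have hx' : flipE _ x ∈ (↑(s.map (flipE (Fin (m + 2))).toEmbedding) : Set _) :=
      mem_coe.2 (Finset.mem_map_of_mem (flipE (Fin (m + 2))).toEmbedding (mem_coe.1 hx))
    have hy' : flipE _ y ∈ (↑(s.map (flipE (Fin (m + 2))).toEmbedding) : Set _) :=
      mem_coe.2 (Finset.mem_map_of_mem (flipE (Fin (m + 2))).toEmbedding (mem_coe.1 hy))
    exact (flipE _).injective (h hx' hy' (by simpa using hxy))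
  · intro h x hx y hy hxy
    simp only [coe_map, Equiv.coe_toEmbedding, Set.mem_image, mem_coe] at hx hy
    obtain ⟨x', hx', rfl⟩ := hx
    obtain ⟨y', hy', rfl⟩ := hy
    rw [h hx' hy' (by simpa using hxy)]

lemma tr_count {m : ℕ} {s : Finset (Fin (m + 2) × Bool)} (hs : Tr m s) (v : Fin (m + 2)) :
    (s.filter fun z => z.1 < v).card = v.val := by
  classical
  have himg : s.image Prod.fst = univ := by
    apply Finset.eq_univ_of_card
    rw [Finset.card_image_of_injOn hs.1, hs.2, Fintype.card_fin]
  have h1 : ((s.filter fun z => z.1 < v).image Prod.fst) = univ.filter fun w => w < v := by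
    ext w
    simp only [mem_image, mem_filter, mem_univ, true_and]
    constructor
    · rintro ⟨z, ⟨_, h2⟩, rfl⟩; exact h2
    · intro hw
      have : w ∈ s.image Prod.fst := by rw [himg]; simp
      obtain ⟨z, hz, rfl⟩ := Finset.mem_image.1 this
      exact ⟨z, ⟨hz, hw⟩, rfl⟩
  have h2 : ((s.filter fun z => z.1 < v).image Prod.fst).card = (s.filter fun z => z.1 < v).card :=
    Finset.card_image_of_injOn (hs.1.mono (by intro z hz; simp at hz ⊢; exact hz.1))
  rw [← h2, h1]
  have : (univ.filter fun w => w < v) = Finset.Iio v := by ext w; simp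
  rw [this, Fin.card_Iio]

lemma tr_alt_unique {m : ℕ} {s t : Finset (Fin (m + 2) × Bool)} (hs : Tr m s) (ht : Tr m t)
    (h1 : Alt true s) (h2 : Alt true t) : s = t := by
  classical
  have key : ∀ {s : Finset (Fin (m + 2) × Bool)}, Tr m s → Alt true s →
      s = univ.filter fun y : Fin (m + 2) × Bool => (y.2 = true ↔ Even y.1.val) := by
    intro s hs h1
    have hsub : s ⊆ univ.filter fun y : Fin (m + 2) × Bool => (y.2 = true ↔ Even y.1.val) := by
      intro y hy
      simp only [mem_filter, mem_univ, true_and]
      rw [← tr_count hs y.1]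
      exact h1 y hy
    refine Finset.eq_of_subset_of_card_le hsub ?_
    rw [hs.2]
    have : (univ.filter fun y : Fin (m + 2) × Bool => (y.2 = true ↔ Even y.1.val)).card ≤
        (univ : Finset (Fin (m + 2))).card := by
      refine Finset.card_le_card_of_injOn Prod.fst (fun _ _ => by simp) ?_
      intro x hx y hy hxy
      simp only [coe_filter, mem_univ, true_and, Set.mem_setOf_eq] at hx hy
      refine Prod.ext hxy ?_
      rw [hxy] at hx
      have := hx.trans hy.symm
      cases h : x.2 <;> cases h' : y.2 <;> simp_all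
    simpa using this
  rw [key hs h1, key ht h2]

lemma exists_tr_alt (m : ℕ) : ∃ s, Tr m s ∧ Alt true s := by
  classical
  refine ⟨univ.image fun v : Fin (m + 2) => (v, decide (Even v.val)), ?_, ?_⟩
  · refine ⟨?_, ?_⟩
    · intro x hx y hy hxy
      simp only [coe_image, coe_univ, Set.image_univ, Set.mem_range] at hx hy
      obtain ⟨v, rfl⟩ := hx
      obtain ⟨w, rfl⟩ := hy
      simp only at hxy
      rw [hxy]
    · rw [Finset.card_image_of_injective]
      · simp
      · intro v w h; exact congrArg Prod.fst h
  · have htr : Tr m (univ.image fun v : Fin (m + 2) => (v, decide (Even v.val))) := by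
      refine ⟨?_, ?_⟩
      · intro x hx y hy hxy
        simp only [coe_image, coe_univ, Set.image_univ, Set.mem_range] at hx hy
        obtain ⟨v, rfl⟩ := hx
        obtain ⟨w, rfl⟩ := hy
        simp only at hxy
        rw [hxy]
      · rw [Finset.card_image_of_injective]
        · simp
        · intro v w h; exact congrArg Prod.fst h
    intro y hy
    have hc := tr_count htr y.1
    obtain ⟨v, _, rfl⟩ := Finset.mem_image.1 hy
    simp only at hc ⊢
    rw [hc]
    simp

lemma cyc_sum (m : ℕ) : ∑ s, altv (ZMod 2) true s * cyc m s = 1 := by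
  classical
  obtain ⟨s, hs, ha⟩ := exists_tr_alt m
  rw [Finset.sum_eq_single s]
  · rw [altv, if_pos ha, cyc, if_pos hs, mul_one]
  · intro t _ hts
    by_cases h1 : Tr m t
    · by_cases h2 : Alt true t
      · exact absurd (tr_alt_unique h1 hs h2 ha) hts
      · rw [altv, if_neg h2, zero_mul]
    · rw [cyc, if_neg h1, mul_zero]
  · intro h; exact absurd (mem_univ s) h

lemma cyc_bd (m : ℕ) (f : Finset (Fin (m + 2) × Bool)) : bd (cyc m) f = 0 := by
  classical
  unfold bd
  have h2 : ∀ a : ZMod 2, a + a = 0 := fun a => CharTwo.add_self_eq_zero a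
  have key : ∀ x : Fin (m + 2) × Bool, x ∉ f → flipE _ x ∉ f →
      cyc m (insert x f) = cyc m (insert (flipE _ x) f) := by
    have aux : ∀ x : Fin (m + 2) × Bool, x ∉ f → flipE _ x ∉ f →
        Tr m (insert x f) → Tr m (insert (flipE _ x) f) := by
      intro x hx hfx hT
      refine ⟨?_, ?_⟩
      · intro a ha b hb hab
        simp only [coe_insert, Set.mem_insert_iff, mem_coe] at ha hb
        rcases ha with rfl | ha <;> rcases hb with rfl | hb
        · rfl
        · exfalso
          have : x = b := hT.1 (by simp) (by simp [hb]) (by simpa using hab)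
          exact hx (this ▸ hb)
        · exfalso
          have : a = x := hT.1 (by simp [ha]) (by simp) (by simpa using hab)
          exact hx (this ▸ ha)
        · exact hT.1 (by simp [ha]) (by simp [hb]) hab
      · rw [card_insert_of_notMem hfx]
        have := hT.2
        rwa [card_insert_of_notMem hx] at this
    intro x hx hfx
    unfold cyc
    by_cases h : Tr m (insert x f)
    · rw [if_pos h, if_pos (aux x hx hfx h)]
    · rw [if_neg h, if_neg]
      intro h'
      apply h
      have := aux (flipE _ x) hfx (by rwa [flipE_flipE]) h'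
      rwa [flipE_flipE] at this
  refine Finset.sum_involution (fun x _ => if flipE _ x ∈ f then x else flipE _ x) ?_ ?_ ?_ ?_
  · intro x hx
    rw [mem_compl] at hx
    by_cases h : flipE _ x ∈ f
    · simp only [if_pos h]; exact h2 _
    · simp only [if_neg h]; rw [← key x hx h]; exact h2 _
  · intro x hx hne
    rw [mem_compl] at hx
    by_cases h : flipE _ x ∈ f
    · exfalso
      apply hne
      unfold cyc
      rw [if_neg]
      intro hT
      have : x = flipE _ x := hT.1 (by simp) (by simpa using Or.inr h) (by simp)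
      exact hx (this ▸ h)
    · simp only [if_neg h]
      intro h'
      have := congrArg Prod.snd h'
      simp at this
  · intro x hx
    rw [mem_compl] at hx
    by_cases h : flipE _ x ∈ f
    · simp only [if_pos h]; rwa [mem_compl]
    · simp only [if_neg h]; rwa [mem_compl]
  · intro x hx
    rw [mem_compl] at hx
    by_cases h : flipE _ x ∈ f
    · simp only [if_pos h]
    · simp only [if_neg h, flipE_flipE, if_neg hx]

/-- the Borsuk-Ulam theorem for the `ℓ¹` sphere -/
theorem borsuk_ulam (m : ℕ) (f : (Fin (m + 2) → ℝ) → (Fin (m + 1) → ℝ))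
    (hf : ContinuousOn f {u | ∑ i, |u i| = 1})
    (hodd : ∀ u, ∑ i, |u i| = 1 → f (-u) = - f u) : ∃ u, ∑ i, |u i| = 1 ∧ f u = 0 := by
  classical
  by_contra hcon
  push Not at hcon
  let S : Finset (Fin (m + 2) × Bool) → Prop :=
    fun s => Set.InjOn Prod.fst (s : Set (Fin (m + 2) × Bool))
  let D : (Fin (m + 2) × Bool → ℝ) → (Fin (m + 2) → ℝ) := fun y v => y (v, true) - y (v, false)
  have hD : ∀ y ∈ real S, ∑ i, |D y i| = 1 := by
    intro y hy
    obtain ⟨h0, h1, s, hs, hsupp⟩ := hy
    rw [Fintype.sum_prod_type] at h1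
    rw [← h1]
    refine Finset.sum_congr rfl fun v _ => ?_
    rw [Fintype.sum_bool]
    have h3 : y (v, true) = 0 ∨ y (v, false) = 0 := by
      by_contra h
      push Not at h
      have := hs (hsupp _ h.1) (hsupp _ h.2) rfl
      simp at this
    rcases h3 with h3 | h3
    · simp only [D, h3, zero_sub, abs_neg, zero_add]; exact abs_of_nonneg (h0 _)
    · simp only [D, h3, sub_zero, add_zero]; exact abs_of_nonneg (h0 _)
  have h := bu (k := ZMod 2) S
    (fun s t hts hs => hs.mono (by exact_mod_cast hts))
    (by
      intro s hs x hx y hy hxy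
      simp only [coe_map, Equiv.coe_toEmbedding, Set.mem_image, mem_coe] at hx hy
      obtain ⟨x', hx', rfl⟩ := hx
      obtain ⟨y', hy', rfl⟩ := hy
      rw [hs hx' hy' (by simpa using hxy)])
    (fun s hs => hs) m (fun y => f (D y))
    (by
      refine hf.comp ?_ ?_
      · exact Continuous.continuousOn (by fun_prop)
      · intro y hy; exact hD y hy)
    (by
      intro y hy
      have : D (flipL _ y) = - D y := by
        funext v
        simp only [D, flipL_apply, flipE_apply, Bool.not_true, Bool.not_false, Pi.neg_apply]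
        ring
      simp only [this]
      exact hodd _ (hD y hy))
    (fun y hy => hcon _ (hD y hy))
    (cyc m)
    (by
      intro s hs
      unfold cyc at hs
      by_cases h : Tr m s
      · exact ⟨h.1, h.2⟩
      · rw [if_neg h] at hs; exact absurd rfl hs)
    (by
      intro s
      unfold cyc
      by_cases h : Tr m s
      · rw [if_pos h, if_pos ((tr_flip s).2 h)]
      · rw [if_neg h, if_neg (fun h' => h ((tr_flip s).1 h'))])
    (cyc_bd m)
  rw [cyc_sum] at h
  exact one_ne_zero h

end GHDRace
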