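import Mathlib

/-!
# Sparse approximation of convex combinations in the sup norm
-/

open Finset

namespace GHDRace

lemma exp_quad {t : ℝ} (ht : |t| ≤ 1) : Real.exp t ≤ 1 + t + t ^ 2 := by
  have := Real.abs_exp_sub_one_sub_id_le ht
  have := abs_le.1 this
  linarith [this.2]

lemma mgf_le {ρ : Type*} [Fintype ρ] (d W : ρ → ℝ) (hW0 : ∀ r, 0 ≤ W r) (hW1 : ∑ r, W r = 1)
    (hd0 : ∑ r, W r * d r = 0) (hd1 : ∑ r, W r * d r ^ 2 ≤ 1) (hd2 : ∀ r, |d r| ≤ 2)
    {θ : ℝ} (hθ : |θ| ≤ 1 / 2) : ∑ r, W r * Real.exp (θ * d r) ≤ Real.exp (θ ^ 2) := by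
  have h1 : ∀ r, W r * Real.exp (θ * d r) ≤ W r + θ * (W r * d r) + θ ^ 2 * (W r * d r ^ 2) := by
    intro r
    have h2 : |θ * d r| ≤ 1 := by
      rw [abs_mul]
      calc |θ| * |d r| ≤ 1 / 2 * 2 := mul_le_mul hθ (hd2 r) (abs_nonneg _) (by norm_num)
        _ = 1 := by norm_num
    have h3 := mul_le_mul_of_nonneg_left (exp_quad h2) (hW0 r)
    calc W r * Real.exp (θ * d r) ≤ W r * (1 + θ * d r + (θ * d r) ^ 2) := h3
      _ = _ := by ring
  calc ∑ r, W r * Real.exp (θ * d r) ≤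
      ∑ r, (W r + θ * (W r * d r) + θ ^ 2 * (W r * d r ^ 2)) := Finset.sum_le_sum fun r _ => h1 r
    _ = 1 + θ * 0 + θ ^ 2 * ∑ r, W r * d r ^ 2 := by
        rw [Finset.sum_add_distrib, Finset.sum_add_distrib, ← Finset.mul_sum, ← Finset.mul_sum,
          hW1, hd0]
    _ ≤ 1 + θ ^ 2 := by nlinarith [sq_nonneg θ]
    _ ≤ Real.exp (θ ^ 2) := by linarith [Real.add_one_le_exp (θ ^ 2)]

/-- Maurey's lemma with a union bound. -/
theorem maurey {ρ ι : Type*} [Fintype ρ] [Fintype ι] (p : ρ → ι → ℝ) (hp : ∀ r x, |p r x| ≤ 1)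
    (W : ρ → ℝ) (hW0 : ∀ r, 0 ≤ W r) (hW1 : ∑ r, W r = 1) {ε : ℝ} (hε0 : 0 < ε) (hε1 : ε ≤ 1)
    (q : ℕ) (hT : 0 < Fintype.card ι)
    (hq : 4 * Real.log (2 * Fintype.card ι) < q * ε ^ 2) :
    ∃ f : Fin q → ρ, ∀ x, |(∑ i, p (f i) x) / q - ∑ r, W r * p r x| ≤ ε := by
  classical
  by_contra hcon
  push Not at hcon
  set z : ι → ℝ := fun x => ∑ r, W r * p r x with hz
  set d : ι → ρ → ℝ := fun x r => p r x - z x with hd
  have hT' : (0 : ℝ) < 2 * Fintype.card ι := by
    have : (0 : ℝ) < Fintype.card ι := by exact_mod_cast hT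
    linarith
  have hq0 : 0 < (q : ℝ) := by
    have h0 : (0 : ℝ) ≤ Real.log (2 * Fintype.card ι) := by
      apply Real.log_nonneg
      have : (1 : ℝ) ≤ Fintype.card ι := by exact_mod_cast hT
      linarith
    by_contra h
    have : (q : ℝ) * ε ^ 2 ≤ 0 := mul_nonpos_of_nonpos_of_nonneg (not_lt.1 h) (sq_nonneg _)
    linarith
  have hz1 : ∀ x, |z x| ≤ 1 := by
    intro x
    calc |z x| ≤ ∑ r, |W r * p r x| := Finset.abs_sum_le_sum_abs _ _
      _ ≤ ∑ r, W r := by
          refine Finset.sum_le_sum fun r _ => ?_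
          rw [abs_mul, abs_of_nonneg (hW0 r)]
          exact mul_le_of_le_one_right (hW0 r) (hp r x)
      _ = 1 := hW1
  have hd2 : ∀ x r, |d x r| ≤ 2 := by
    intro x r
    calc |d x r| ≤ |p r x| + |z x| := abs_sub _ _
      _ ≤ 2 := by linarith [hp r x, hz1 x]
  have hd0 : ∀ x, ∑ r, W r * d x r = 0 := by
    intro x
    simp only [hd, mul_sub, Finset.sum_sub_distrib]
    rw [← Finset.sum_mul, hW1, one_mul, hz, sub_self]
  have hd1 : ∀ x, ∑ r, W r * d x r ^ 2 ≤ 1 := by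
    intro x
    have h1 : ∑ r, W r * d x r ^ 2 = ∑ r, W r * p r x ^ 2 - z x ^ 2 := by
      have h2 : ∀ r, W r * d x r ^ 2 = W r * p r x ^ 2 - 2 * z x * (W r * p r x) +
          z x ^ 2 * W r := by
        intro r; simp only [hd]; ring
      rw [Finset.sum_congr rfl fun r _ => h2 r, Finset.sum_add_distrib, Finset.sum_sub_distrib,
        ← Finset.mul_sum, ← Finset.mul_sum, hW1]
      have : ∑ r, W r * p r x = z x := rfl
      rw [this]; ring
    rw [h1]
    have h3 : ∑ r, W r * p r x ^ 2 ≤ ∑ r, W r := by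
      refine Finset.sum_le_sum fun r _ => ?_
      refine mul_le_of_le_one_right (hW0 r) ?_
      rw [← sq_abs]
      exact pow_le_one₀ (abs_nonneg _) (hp r x)
    rw [hW1] at h3
    nlinarith [sq_nonneg (z x)]
  set θ : ℝ := ε / 2 with hθ
  have hθ1 : |θ| ≤ 1 / 2 := by
    rw [abs_of_pos (by positivity)]; linarith
  have hθ2 : |-θ| ≤ 1 / 2 := by rwa [abs_neg]
  -- pointwise
  have hpt : ∀ f : Fin q → ρ, (1 : ℝ) ≤ ∑ x, Real.exp (-(θ * q * ε)) *
      (∏ i, Real.exp (θ * d x (f i)) + ∏ i, Real.exp (-θ * d x (f i))) := by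
    intro f
    obtain ⟨x, hx⟩ := hcon f
    have hs : (∑ i, p (f i) x) / q - z x = (∑ i, d x (f i)) / q := by
      simp only [hd, Finset.sum_sub_distrib, Finset.sum_const, Finset.card_univ, Fintype.card_fin,
        nsmul_eq_mul]
      field_simp
    rw [hs, abs_div, abs_of_pos hq0, lt_div_iff₀ hq0] at hx
    have hterm : ∀ y, 0 ≤ Real.exp (-(θ * q * ε)) *
      (∏ i, Real.exp (θ * d y (f i)) + ∏ i, Real.exp (-θ * d y (f i))) := by
      intro y; positivity
    refine le_trans ?_ (Finset.single_le_sum (f := fun y => Real.exp (-(θ * q * ε)) *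
      (∏ i, Real.exp (θ * d y (f i)) + ∏ i, Real.exp (-θ * d y (f i)))) (fun y _ => hterm y)
      (mem_univ x))
    rw [← Real.exp_sum, ← Real.exp_sum, ← Finset.mul_sum, ← Finset.mul_sum, mul_add,
      ← Real.exp_add, ← Real.exp_add]
    have hθ0 : 0 < θ := by positivity
    rcases le_total 0 (∑ i, d x (f i)) with h | h
    · rw [abs_of_nonneg h] at hx
      have h1 : 0 ≤ -(θ * q * ε) + θ * ∑ i, d x (f i) := by nlinarith
      have h2 := Real.one_le_exp h1
      have h3 := (Real.exp_pos (-(θ * q * ε) + -θ * ∑ i, d x (f i))).le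
      linarith
    · rw [abs_of_nonpos h] at hx
      have h1 : 0 ≤ -(θ * q * ε) + -θ * ∑ i, d x (f i) := by nlinarith
      have h2 := Real.one_le_exp h1
      have h3 := (Real.exp_pos (-(θ * q * ε) + θ * ∑ i, d x (f i))).le
      linarith
  have hprob : ∑ f : Fin q → ρ, ∏ i, W (f i) = 1 := by
    rw [← Fintype.sum_pow, hW1, one_pow]
  have hW' : ∀ f : Fin q → ρ, 0 ≤ ∏ i, W (f i) := fun f => Finset.prod_nonneg fun i _ => hW0 _
  have hbound : (1 : ℝ) ≤ ∑ x : ι, Real.exp (-(θ * q * ε)) *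
      ((∑ r, W r * Real.exp (θ * d x r)) ^ q + (∑ r, W r * Real.exp (-θ * d x r)) ^ q) := by
    calc (1 : ℝ) = ∑ f : Fin q → ρ, (∏ i, W (f i)) * 1 := by simp [hprob]
      _ ≤ ∑ f : Fin q → ρ, (∏ i, W (f i)) * ∑ x, Real.exp (-(θ * q * ε)) *
      (∏ i, Real.exp (θ * d x (f i)) + ∏ i, Real.exp (-θ * d x (f i))) :=
          Finset.sum_le_sum fun f _ => mul_le_mul_of_nonneg_left (hpt f) (hW' f)
      _ = ∑ x : ι, ∑ f : Fin q → ρ, Real.exp (-(θ * q * ε)) *
          (∏ i, W (f i) * Real.exp (θ * d x (f i)) + ∏ i, W (f i) * Real.exp (-θ * d x (f i))) := by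
          rw [Finset.sum_comm]
          refine Finset.sum_congr rfl fun f _ => ?_
          rw [Finset.mul_sum]
          refine Finset.sum_congr rfl fun x _ => ?_
          rw [Finset.prod_mul_distrib, Finset.prod_mul_distrib]
          ring
      _ = _ := by
          refine Finset.sum_congr rfl fun x _ => ?_
          rw [← Finset.mul_sum, Finset.sum_add_distrib, Fintype.sum_pow, Fintype.sum_pow]
  have hfin : ∑ x : ι, Real.exp (-(θ * q * ε)) *
      ((∑ r, W r * Real.exp (θ * d x r)) ^ q + (∑ r, W r * Real.exp (-θ * d x r)) ^ q) ≤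
      2 * Fintype.card ι * Real.exp (-(q * ε ^ 2 / 4)) := by
    calc _ ≤ ∑ x : ι, 2 * Real.exp (-(q * ε ^ 2 / 4)) := by
          refine Finset.sum_le_sum fun x _ => ?_
          have h1 := mgf_le (d x) W hW0 hW1 (hd0 x) (hd1 x) (hd2 x) hθ1
          have h2 := mgf_le (d x) W hW0 hW1 (hd0 x) (hd1 x) (hd2 x) hθ2
          have h3 : 0 ≤ ∑ r, W r * Real.exp (θ * d x r) :=
            Finset.sum_nonneg fun r _ => mul_nonneg (hW0 r) (Real.exp_pos _).le
          have h4 : 0 ≤ ∑ r, W r * Real.exp (-θ * d x r) :=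
            Finset.sum_nonneg fun r _ => mul_nonneg (hW0 r) (Real.exp_pos _).le
          have h5 := pow_le_pow_left₀ h3 h1 q
          have h6 := pow_le_pow_left₀ h4 h2 q
          rw [neg_sq] at h6
          have h7 : Real.exp (-(θ * q * ε)) * (Real.exp (θ ^ 2)) ^ q =
              Real.exp (-(q * ε ^ 2 / 4)) := by
            rw [← Real.exp_nat_mul, ← Real.exp_add]
            congr 1
            rw [hθ]; ring
          have h8 : 0 ≤ Real.exp (-(θ * q * ε)) := (Real.exp_pos _).le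
          nlinarith
      _ = _ := by
          rw [Finset.sum_const, Finset.card_univ, nsmul_eq_mul]; ring
  have hlt : 2 * Fintype.card ι * Real.exp (-(q * ε ^ 2 / 4)) < 1 := by
    rw [Real.exp_neg, ← div_eq_mul_inv, div_lt_one (Real.exp_pos _)]
    calc (2 * Fintype.card ι : ℝ) = Real.exp (Real.log (2 * Fintype.card ι)) :=
          (Real.exp_log hT').symm
      _ < Real.exp (q * ε ^ 2 / 4) := Real.exp_lt_exp.2 (by linarith)
  linarith

end GHDRace
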