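import Mathlib

/-!
# The race: a choice of clocks with few near winners for every weight of a small family
-/

open Finset

namespace GHDRace

lemma sum_pi_prod {ι : Type*} [Fintype ι] [DecidableEq ι] {Q : ℕ} (F : ι → Fin Q → ℝ) :
    ∑ e : ι → Fin Q, ∏ x, F x (e x) = ∏ x, ∑ j, F x j := by
  rw [Finset.prod_univ_sum, Fintype.piFinset_univ]

lemma card_gt_le {Q : ℕ} (hQ : 0 < Q) {t : ℝ} (ht : 0 ≤ t) :
    ((univ.filter fun j : Fin Q => t < ((j : ℝ) + 1) / Q).card : ℝ) ≤
      Q * Real.exp (-t + 1 / Q) := by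
  classical
  have hQ' : (0 : ℝ) < Q := by exact_mod_cast hQ
  have h1 : (univ.filter fun j : Fin Q => t < ((j : ℝ) + 1) / Q).card ≤ Q - ⌊t * Q⌋₊ := by
    rw [← Nat.card_Ioc]
    refine Finset.card_le_card_of_injOn (fun j => (j : ℕ) + 1) ?_ ?_
    · intro j hj
      simp only [coe_filter, mem_univ, true_and, Set.mem_setOf_eq] at hj
      rw [lt_div_iff₀ hQ'] at hj
      simp only [coe_Ioc, Set.mem_Ioc]
      refine ⟨?_, j.2⟩
      rw [Nat.floor_lt (by positivity)]
      push_cast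
      exact hj
    · intro a _ b _ hab
      exact Fin.ext (by simpa using hab)
  have h2 : (((Q - ⌊t * Q⌋₊ : ℕ)) : ℝ) ≤ Q * Real.exp (-t + 1 / Q) := by
    rcases le_total ⌊t * Q⌋₊ Q with h | h
    · rw [Nat.cast_sub h]
      have h3 := Nat.lt_floor_add_one (t * Q)
      have h4 := Real.add_one_le_exp (-t + 1 / (Q : ℝ))
      have h5 : (Q : ℝ) * (-t + 1 / Q + 1) = Q - t * Q + 1 := by field_simp; ring
      have h6 := mul_le_mul_of_nonneg_left h4 hQ'.le
      linarith
    · rw [Nat.sub_eq_zero_of_le h]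
      push_cast
      positivity
  exact le_trans (by exact_mod_cast h1) h2

lemma card_lt_le {Q : ℕ} (hQ : 0 < Q) {t : ℝ} (ht : 0 ≤ t) :
    ((univ.filter fun j : Fin Q => ((j : ℝ) + 1) / Q < t).card : ℝ) ≤ Q * t := by
  classical
  have hQ' : (0 : ℝ) < Q := by exact_mod_cast hQ
  have h1 : (univ.filter fun j : Fin Q => ((j : ℝ) + 1) / Q < t).card ≤ ⌊t * Q⌋₊ := by
    have h0 : (Finset.Ioc 0 ⌊t * Q⌋₊).card = ⌊t * Q⌋₊ := by rw [Nat.card_Ioc, Nat.sub_zero]
    rw [← h0]
    refine Finset.card_le_card_of_injOn (fun j => (j : ℕ) + 1) ?_ ?_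
    · intro j hj
      simp only [coe_filter, mem_univ, true_and, Set.mem_setOf_eq] at hj
      rw [div_lt_iff₀ hQ'] at hj
      simp only [coe_Ioc, Set.mem_Ioc]
      refine ⟨Nat.succ_pos _, Nat.le_floor ?_⟩
      push_cast
      exact hj.le
    · intro a _ b _ hab
      exact Fin.ext (by simpa using hab)
  have h2 := Nat.floor_le (a := t * Q) (by positivity)
  calc ((univ.filter fun j : Fin Q => ((j : ℝ) + 1) / Q < t).card : ℝ) ≤ (⌊t * Q⌋₊ : ℝ) := by
        exact_mod_cast h1
    _ ≤ t * Q := h2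
    _ = Q * t := mul_comm _ _

open Classical in
/-- the number of clocks for which every clock is late -/
lemma count_late {ι : Type*} [Fintype ι] {Q : ℕ} (hQ : 0 < Q) (t : ι → ℝ) (ht : ∀ x, 0 ≤ t x) :
    ∑ e : ι → Fin Q, (if ∀ x, t x < ((e x : ℝ) + 1) / Q then (1 : ℝ) else 0) ≤
      (Q : ℝ) ^ Fintype.card ι * Real.exp (-(∑ x, t x) + Fintype.card ι / Q) := by
  have h1 : ∀ e : ι → Fin Q, (if ∀ x, t x < ((e x : ℝ) + 1) / Q then (1 : ℝ) else 0) ≤
      ∏ x, (if t x < ((e x : ℝ) + 1) / Q then (1 : ℝ) else 0) := by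
    intro e
    split_ifs with h
    · rw [Finset.prod_congr rfl fun x _ => if_pos (h x), Finset.prod_const_one]
    · exact Finset.prod_nonneg fun x _ => by split_ifs <;> norm_num
  refine (Finset.sum_le_sum fun e _ => h1 e).trans ?_
  rw [sum_pi_prod (fun x j => if t x < ((j : ℝ) + 1) / Q then (1 : ℝ) else 0)]
  have h2 : ∀ x, ∑ j : Fin Q, (if t x < ((j : ℝ) + 1) / Q then (1 : ℝ) else 0) ≤
      Q * Real.exp (-t x + 1 / Q) := by
    intro x
    rw [Finset.sum_boole]
    exact card_gt_le hQ (ht x)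
  refine (Finset.prod_le_prod (fun x _ => Finset.sum_nonneg fun j _ => by split_ifs <;> norm_num)
    fun x _ => h2 x).trans ?_
  rw [Finset.prod_mul_distrib, Finset.prod_const, Finset.card_univ, ← Real.exp_sum,
    Finset.sum_add_distrib, Finset.sum_neg_distrib, Finset.sum_const, Finset.card_univ,
    nsmul_eq_mul, mul_one_div]

open Classical in
/-- the number of clocks with many early clocks -/
lemma count_early {ι : Type*} [Fintype ι] {Q : ℕ} (hQ : 0 < Q) (t : ι → ℝ) (ht : ∀ x, 0 ≤ t x)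
    (m : ℕ) :
    ∑ e : ι → Fin Q, (if m < (univ.filter fun x => ((e x : ℝ) + 1) / Q < t x).card
      then (1 : ℝ) else 0) ≤
      (Q : ℝ) ^ Fintype.card ι * (Real.exp (∑ x, t x) / 2 ^ (m + 1)) := by
  have h1 : ∀ e : ι → Fin Q, (if m < (univ.filter fun x => ((e x : ℝ) + 1) / Q < t x).card
      then (1 : ℝ) else 0) ≤
      (∏ x, (if ((e x : ℝ) + 1) / Q < t x then (2 : ℝ) else 1)) / 2 ^ (m + 1) := by
    intro e
    have h2 : ∏ x, (if ((e x : ℝ) + 1) / Q < t x then (2 : ℝ) else 1) =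
        2 ^ (univ.filter fun x => ((e x : ℝ) + 1) / Q < t x).card := by
      rw [Finset.prod_ite, Finset.prod_const, Finset.prod_const_one, mul_one]
    rw [h2]
    split_ifs with h
    · rw [le_div_iff₀ (by positivity), one_mul]
      exact pow_le_pow_right₀ (by norm_num) h
    · positivity
  refine (Finset.sum_le_sum fun e _ => h1 e).trans ?_
  rw [← Finset.sum_div, sum_pi_prod (fun x j => if ((j : ℝ) + 1) / Q < t x then (2 : ℝ) else 1),
    ← mul_div_assoc]
  refine div_le_div_of_nonneg_right ?_ (by positivity)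
  have h3 : ∀ x, ∑ j : Fin Q, (if ((j : ℝ) + 1) / Q < t x then (2 : ℝ) else 1) ≤
      Q * Real.exp (t x) := by
    intro x
    have h4 : ∑ j : Fin Q, (if ((j : ℝ) + 1) / Q < t x then (2 : ℝ) else 1) =
        Q + ((univ.filter fun j : Fin Q => ((j : ℝ) + 1) / Q < t x).card : ℝ) := by
      have h5 : ∀ j : Fin Q, (if ((j : ℝ) + 1) / Q < t x then (2 : ℝ) else 1) =
          1 + (if ((j : ℝ) + 1) / Q < t x then (1 : ℝ) else 0) := by
        intro j; split_ifs <;> norm_num
      rw [Finset.sum_congr rfl fun j _ => h5 j, Finset.sum_add_distrib, Finset.sum_boole]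
      simp
    rw [h4]
    have h6 := card_lt_le hQ (ht x)
    have h7 := Real.add_one_le_exp (t x)
    have hQ' : (0 : ℝ) < Q := by exact_mod_cast hQ
    nlinarith
  refine (Finset.prod_le_prod (fun x _ => Finset.sum_nonneg fun j _ => by split_ifs <;> norm_num)
    fun x _ => h3 x).trans ?_
  rw [Finset.prod_mul_distrib, Finset.prod_const, Finset.card_univ, ← Real.exp_sum]

open Classical in
/-- **The race.** For a family `N` of fewer than `exp s / 4` weights there are clocks
`E x ∈ [1/T, 1]` such that for every weight `w` of the family some label `y` is beaten, up to a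
factor `15`, by at most `24 s` labels. -/
theorem race {ι : Type*} [Fintype ι] (hT : 0 < Fintype.card ι) (N : Finset (ι → ℝ))
    (hw : ∀ w ∈ N, ∀ x, 0 ≤ w x) (hpos : ∀ w ∈ N, 0 < ∑ x, w x) (s : ℝ)
    (hN : 4 * (N.card : ℝ) < Real.exp s) (hs : 0 < s) (m : ℕ) (hm : 24 * s ≤ m) :
    ∃ E : ι → ℝ, (∀ x, 1 / (Fintype.card ι : ℝ) ≤ E x ∧ E x ≤ 1) ∧
      ∀ w ∈ N, ∃ y, (univ.filter fun x => w y / E y < 15 * (w x / E x)).card ≤ m := by
  set Q := Fintype.card ι with hQ
  have hQ' : (0 : ℝ) < Q := by exact_mod_cast hT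
  let late : (ι → ℝ) → (ι → Fin Q) → Prop := fun w e =>
    ∀ x, s * (w x / ∑ y, w y) < ((e x : ℝ) + 1) / Q
  let early : (ι → ℝ) → (ι → Fin Q) → Prop := fun w e =>
    m < (univ.filter fun x => ((e x : ℝ) + 1) / Q < 15 * s * (w x / ∑ y, w y)).card
  -- existence of good clocks
  obtain ⟨e, he⟩ : ∃ e : ι → Fin Q, ∀ w ∈ N, ¬ late w e ∧ ¬ early w e := by
    by_contra hcon
    push Not at hcon
    have h1 : ∀ e : ι → Fin Q, (1 : ℝ) ≤ ∑ w ∈ N, ((if late w e then (1 : ℝ) else 0) +
        (if early w e then (1 : ℝ) else 0)) := by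
      intro e
      obtain ⟨w, hwN, hwe⟩ := hcon e
      refine le_trans ?_ (Finset.single_le_sum (f := fun w => (if late w e then (1 : ℝ) else 0) +
        (if early w e then (1 : ℝ) else 0)) (fun w _ => by positivity) hwN)
      by_cases h : late w e
      · simp only [if_pos h]
        have : (0 : ℝ) ≤ if early w e then (1 : ℝ) else 0 := by split_ifs <;> norm_num
        linarith
      · simp only [if_neg h, if_pos (hwe h)]; norm_num
    have hlog : (16 : ℝ) * s ≤ (m + 1) * Real.log 2 := by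
      have := Real.log_two_gt_d9
      nlinarith
    have h2 : ∀ w ∈ N, ∑ e : ι → Fin Q, ((if late w e then (1 : ℝ) else 0) +
        (if early w e then (1 : ℝ) else 0)) ≤ (Q : ℝ) ^ Q * (4 * Real.exp (-s)) := by
      intro w hwN
      have hΩ := hpos w hwN
      have hfrac : ∑ x, w x / ∑ y, w y = 1 := by
        rw [← Finset.sum_div, div_self hΩ.ne']
      rw [Finset.sum_add_distrib]
      have h3 := count_late (ι := ι) hT (fun x => s * (w x / ∑ y, w y))
        (fun x => mul_nonneg hs.le (div_nonneg (hw w hwN x) hΩ.le))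
      have h4 := count_early (ι := ι) hT (fun x => 15 * s * (w x / ∑ y, w y))
        (fun x => mul_nonneg (by positivity) (div_nonneg (hw w hwN x) hΩ.le)) m
      rw [← Finset.mul_sum, hfrac, mul_one] at h3 h4
      have h5 : Real.exp (-s + (Fintype.card ι : ℝ) / (Q : ℝ)) = Real.exp 1 * Real.exp (-s) := by
        rw [← Real.exp_add]
        congr 1
        rw [← hQ, div_self hQ'.ne']
        ring
      have h6 : Real.exp (15 * s) / 2 ^ (m + 1) ≤ Real.exp (-s) := by
        rw [div_le_iff₀ (by positivity)]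
        have h7 : (2 : ℝ) ^ (m + 1) = Real.exp ((m + 1) * Real.log 2) := by
          rw [← Real.rpow_natCast, Real.rpow_def_of_pos (by norm_num)]
          congr 1
          push_cast
          ring
        rw [h7, ← Real.exp_add]
        exact Real.exp_le_exp.2 (by linarith)
      rw [← hQ] at h3 h4
      rw [← hQ] at h5
      rw [h5] at h3
      have he1 : Real.exp 1 < 3 := by
        have := Real.exp_one_lt_d9; linarith
      have hexp : 0 < Real.exp (-s) := Real.exp_pos _
      have hpow : (0 : ℝ) < (Q : ℝ) ^ Q := by positivity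
      have h8 : (Q : ℝ) ^ Q * (Real.exp 1 * Real.exp (-s)) ≤ (Q : ℝ) ^ Q * (3 * Real.exp (-s)) :=
        mul_le_mul_of_nonneg_left (mul_le_mul_of_nonneg_right he1.le hexp.le) hpow.le
      have h9 : (Q : ℝ) ^ Q * (Real.exp (15 * s) / 2 ^ (m + 1)) ≤ (Q : ℝ) ^ Q * Real.exp (-s) :=
        mul_le_mul_of_nonneg_left h6 hpow.le
      calc _ ≤ (Q : ℝ) ^ Q * (Real.exp 1 * Real.exp (-s)) +
            (Q : ℝ) ^ Q * (Real.exp (15 * s) / 2 ^ (m + 1)) := add_le_add h3 h4
        _ ≤ (Q : ℝ) ^ Q * (3 * Real.exp (-s)) + (Q : ℝ) ^ Q * Real.exp (-s) := add_le_add h8 h9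
        _ = _ := by ring
    have h10 : ((Q : ℝ) ^ Q) ≤ N.card * ((Q : ℝ) ^ Q * (4 * Real.exp (-s))) := by
      calc ((Q : ℝ) ^ Q) = ∑ e : ι → Fin Q, (1 : ℝ) := by
            rw [Finset.sum_const, Finset.card_univ, Fintype.card_fun, Fintype.card_fin,
              nsmul_eq_mul, mul_one, ← hQ]
            push_cast
            rfl
        _ ≤ ∑ e : ι → Fin Q, ∑ w ∈ N, ((if late w e then (1 : ℝ) else 0) +
            (if early w e then (1 : ℝ) else 0)) := Finset.sum_le_sum fun e _ => h1 e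
        _ = ∑ w ∈ N, ∑ e : ι → Fin Q, ((if late w e then (1 : ℝ) else 0) +
            (if early w e then (1 : ℝ) else 0)) := Finset.sum_comm
        _ ≤ ∑ w ∈ N, (Q : ℝ) ^ Q * (4 * Real.exp (-s)) := Finset.sum_le_sum h2
        _ = _ := by rw [Finset.sum_const, nsmul_eq_mul]
    have hpow : (0 : ℝ) < (Q : ℝ) ^ Q := by positivity
    have h11 : (N.card : ℝ) * (4 * Real.exp (-s)) < 1 := by
      rw [Real.exp_neg, ← mul_assoc, ← div_eq_mul_inv, div_lt_one (Real.exp_pos _)]
      linarith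
    nlinarith
  refine ⟨fun x => ((e x : ℝ) + 1) / Q, fun x => ⟨?_, ?_⟩, ?_⟩
  · refine div_le_div_of_nonneg_right ?_ hQ'.le
    have : (0 : ℝ) ≤ (e x : ℝ) := Nat.cast_nonneg _
    linarith
  · rw [div_le_one hQ']
    exact_mod_cast (e x).2
  · intro w hwN
    obtain ⟨h1, h2⟩ := he w hwN
    have hΩ := hpos w hwN
    simp only [late, not_forall, not_lt] at h1
    simp only [early, not_lt] at h2
    obtain ⟨y, hy⟩ := h1
    refine ⟨y, (Finset.card_le_card ?_).trans h2⟩
    intro x hx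
    simp only [mem_filter, mem_univ, true_and] at hx ⊢
    have hEy : 0 < ((e y : ℝ) + 1) / Q := by positivity
    have hEx : 0 < ((e x : ℝ) + 1) / Q := by positivity
    have h3 : (∑ z, w z) / s ≤ w y / (((e y : ℝ) + 1) / Q) := by
      rw [div_le_div_iff₀ hs hEy]
      have : ((e y : ℝ) + 1) / Q * ∑ z, w z ≤ s * w y := by
        calc ((e y : ℝ) + 1) / Q * ∑ z, w z ≤ s * (w y / ∑ z, w z) * ∑ z, w z :=
              mul_le_mul_of_nonneg_right hy hΩ.le
          _ = s * w y := by field_simp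
      linarith
    have h4 : (∑ z, w z) / s < 15 * (w x / (((e x : ℝ) + 1) / Q)) := lt_of_le_of_lt h3 hx
    rw [div_lt_iff₀ hs] at h4
    have h5 : (15 * (w x / (((e x : ℝ) + 1) / Q))) * s = (15 * s * w x) / (((e x : ℝ) + 1) / Q) := by
      ring
    rw [h5, lt_div_iff₀ hEx] at h4
    have h6 : 15 * s * (w x / ∑ z, w z) = (15 * s * w x) / ∑ z, w z := by ring
    rw [h6, lt_div_iff₀ hΩ]
    linarith

end GHDRace
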