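import Pool.Agent.Lib.GHDRace.Labels
import Pool.Agent.Lib.GHDRace.Maurey
import Pool.Agent.Lib.GHDRace.Race

/-!
# The index of a unanimous antipodal family of convex combinations
-/

open Finset

namespace GHDRace

/-- Let `z` be an odd continuous map from the `k`-sphere to the convex hull of `R` functions on
`T` points, with values in `[-1,1]`, such that every `z u` has a coordinate of absolute value one.
Then `k` is at most `C log R (log T) ^ 3`. -/
theorem race_main {ρ ι : Type*} [Fintype ρ] [Fintype ι] (p : ρ → ι → ℝ)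
    (hp : ∀ r x, |p r x| ≤ 1) (k : ℕ) (W : (Fin (k + 1) → ℝ) → ρ → ℝ)
    (hW0 : ∀ u ∈ sph k, ∀ r, 0 ≤ W u r) (hW1 : ∀ u ∈ sph k, ∑ r, W u r = 1)
    (hWc : ContinuousOn (fun u x => ∑ r, W u r * p r x) (sph k))
    (hodd : ∀ u ∈ sph k, ∀ x, ∑ r, W (-u) r * p r x = - ∑ r, W u r * p r x)
    (hone : ∀ u ∈ sph k, ∃ x, 1 ≤ |∑ r, W u r * p r x|) :
    (k : ℝ) + 1 ≤ 24 * (1 + Real.log 4 + (4 * (1 + Real.log (2 * Fintype.card ι)) ^ 2 *
      Real.log (2 * Fintype.card ι) + 1) * Real.log (Fintype.card ρ)) + 1 := by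
  classical
  obtain ⟨u0, hu0⟩ := sph_nonempty k
  obtain ⟨x0, _⟩ := hone u0 hu0
  have hι : Nonempty ι := ⟨x0⟩
  have hT : 0 < Fintype.card ι := Fintype.card_pos
  have hρ : Nonempty ρ := by
    by_contra h
    rw [not_nonempty_iff] at h
    have := hW1 u0 hu0
    simp at this
  have hK : 1 ≤ Fintype.card ρ := Fintype.card_pos
  set T : ℝ := (Fintype.card ι : ℝ) with hTdef
  set K : ℝ := (Fintype.card ρ : ℝ) with hKdef
  have hT1 : (1 : ℝ) ≤ T := by rw [hTdef]; exact_mod_cast hT
  have hK1 : (1 : ℝ) ≤ K := by rw [hKdef]; exact_mod_cast hK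
  have hlogK : 0 ≤ Real.log K := Real.log_nonneg hK1
  have hlog2T : 0 ≤ Real.log (2 * T) := Real.log_nonneg (by linarith)
  set L : ℝ := 1 + Real.log (2 * T) with hL
  have hL1 : 1 ≤ L := by linarith
  have hL0 : 0 < L := by linarith
  set q : ℕ := ⌊4 * L ^ 2 * Real.log (2 * T)⌋₊ + 1 with hq
  have hq1 : 4 * L ^ 2 * Real.log (2 * T) < q := by
    rw [hq]; push_cast; exact Nat.lt_floor_add_one _
  have hq2 : (q : ℝ) ≤ 4 * L ^ 2 * Real.log (2 * T) + 1 := by
    rw [hq]; push_cast
    have := Nat.floor_le (a := 4 * L ^ 2 * Real.log (2 * T)) (by positivity)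
    linarith
  have hq0 : (0 : ℝ) < q := by rw [hq]; positivity
  set z : (Fin (k + 1) → ℝ) → ι → ℝ := fun u x => ∑ r, W u r * p r x with hz
  let wf : (Fin q → ρ) → ι → ℝ := fun f x => Real.exp (-(L * (1 - |(∑ i, p (f i) x) / q|)))
  set N : Finset (ι → ℝ) := univ.image wf with hN
  set s : ℝ := 1 + Real.log 4 + q * Real.log K with hs
  have hlog4 : 0 < Real.log 4 := Real.log_pos (by norm_num)
  have hs0 : 0 < s := by rw [hs]; positivity
  have hexps : Real.exp s = Real.exp 1 * (4 * K ^ q) := by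
    rw [hs, Real.exp_add, Real.exp_add, Real.exp_log (by norm_num), Real.exp_nat_mul,
      Real.exp_log (by linarith)]
    ring
  have hNcard : (N.card : ℝ) ≤ K ^ q := by
    have h1 : N.card ≤ Fintype.card (Fin q → ρ) := by
      rw [hN]; exact Finset.card_image_le.trans (by rw [Finset.card_univ])
    rw [Fintype.card_fun, Fintype.card_fin] at h1
    rw [hKdef]
    exact_mod_cast h1
  have hN4 : 4 * (N.card : ℝ) < Real.exp s := by
    rw [hexps]
    have h1 : (1 : ℝ) < Real.exp 1 := by
      have := Real.exp_one_gt_d9; linarith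
    have h2 : (0 : ℝ) < 4 * K ^ q := by positivity
    nlinarith
  obtain ⟨E, hE, hrace⟩ := race hT N
    (by intro w hw x; obtain ⟨f, _, rfl⟩ := Finset.mem_image.1 hw; exact (Real.exp_pos _).le)
    (by
      intro w hw
      obtain ⟨f, _, rfl⟩ := Finset.mem_image.1 hw
      exact Finset.sum_pos (fun x _ => Real.exp_pos _) univ_nonempty)
    s hN4 hs0 ⌈24 * s⌉₊ (Nat.le_ceil _)
  have hE0 : ∀ x, 0 < E x := fun x => lt_of_lt_of_le (by positivity) (hE x).1
  let φ : ι → ℝ → ℝ := fun x t => Real.exp (-(L * (1 - t))) / E x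
  have hφc : ∀ x, Continuous (φ x) := by
    intro x
    simp only [φ]
    fun_prop
  have hφpos : ∀ x t, 0 < φ x t := fun x t => div_pos (Real.exp_pos _) (hE0 x)
  have hφmono : ∀ x, Monotone (φ x) := by
    intro x a b hab
    refine div_le_div_of_nonneg_right (Real.exp_le_exp.2 ?_) (hE0 x).le
    nlinarith
  let M : (Fin (k + 1) → ℝ) → ℝ := fun u => univ.sup' univ_nonempty fun x => φ x |z u x|
  have hMge : ∀ u x, φ x |z u x| ≤ M u := fun u x =>
    Finset.le_sup' (fun x => φ x |z u x|) (mem_univ x)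
  have hMex : ∀ u, ∃ x, M u = φ x |z u x| := by
    intro u
    obtain ⟨x, _, hx⟩ := Finset.exists_mem_eq_sup' (univ_nonempty (α := ι))
      (fun x => φ x |z u x|)
    exact ⟨x, hx⟩
  have hM1 : ∀ u ∈ sph k, 1 ≤ M u := by
    intro u hu
    obtain ⟨x, hx⟩ := hone u hu
    refine le_trans ?_ (hMge u x)
    have h1 : φ x 1 ≤ φ x |z u x| := hφmono x hx
    refine le_trans ?_ h1
    simp only [φ, sub_self, mul_zero, neg_zero, Real.exp_zero]
    rw [le_div_iff₀ (hE0 x), one_mul]
    exact (hE x).2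
  have hφ0 : ∀ x, φ x 0 ≤ 1 / 2 := by
    intro x
    simp only [φ, sub_zero, mul_one]
    rw [div_le_iff₀ (hE0 x)]
    have h1 : Real.exp (-L) ≤ 1 / (2 * T) := by
      rw [hL, neg_add, Real.exp_add, Real.exp_neg (Real.log _), Real.exp_log (by linarith),
        one_div]
      have h2 : Real.exp (-1) ≤ 1 := Real.exp_le_one_iff.2 (by norm_num)
      have h3 : (0 : ℝ) < (2 * T)⁻¹ := by positivity
      nlinarith
    have h2 := (hE x).1
    have h3 : 1 / (2 * T) = 1 / 2 * (1 / T) := by field_simp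
    rw [h3] at h1
    linarith
  have hzodd : ∀ u ∈ sph k, ∀ x, z (-u) x = - z u x := hodd
  have hzc : ∀ x, ContinuousOn (fun u => z u x) (sph k) := fun x => continuousOn_pi.1 hWc x
  have hMc : ContinuousOn M (sph k) := by
    refine ContinuousOn.finset_sup'_apply univ_nonempty fun x _ => ?_
    exact (hφc x).comp_continuousOn ((hzc x).abs)
  have hModd : ∀ u ∈ sph k, M (-u) = M u := by
    intro u hu
    simp only [M]
    congr 1
    funext x
    rw [hzodd u hu x, abs_neg]
  let g : (Fin (k + 1) → ℝ) → ι → ℝ := fun u x =>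
    max 0 (φ x (z u x) - M u / 2) - max 0 (φ x (-z u x) - M u / 2)
  have hgc : ContinuousOn g (sph k) := by
    refine continuousOn_pi.2 fun x => ?_
    have h1 : ContinuousOn (fun u => φ x (z u x) - M u / 2) (sph k) :=
      ((hφc x).comp_continuousOn (hzc x)).sub (hMc.div_const _)
    have h2 : ContinuousOn (fun u => φ x (-z u x) - M u / 2) (sph k) :=
      ((hφc x).comp_continuousOn (hzc x).neg).sub (hMc.div_const _)
    exact (continuousOn_const.sup h1).sub (continuousOn_const.sup h2)
  have hgodd : ∀ u ∈ sph k, g (-u) = - g u := by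
    intro u hu
    funext x
    simp only [g, Pi.neg_apply, hzodd u hu x, hModd u hu, neg_neg]
    ring
  have hgne : ∀ u ∈ sph k, ∃ x, g u x ≠ 0 := by
    intro u hu
    obtain ⟨x, hx⟩ := hMex u
    have hM := hM1 u hu
    refine ⟨x, ?_⟩
    simp only [g]
    rcases le_total 0 (z u x) with h | h
    · rw [abs_of_nonneg h] at hx
      have h1 : φ x (-z u x) ≤ 1 / 2 := (hφmono x (by linarith)).trans (hφ0 x)
      rw [← hx, max_eq_right (by linarith), max_eq_left (by linarith)]
      linarith
    · rw [abs_of_nonpos h] at hx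
      have h1 : φ x (z u x) ≤ 1 / 2 := (hφmono x h).trans (hφ0 x)
      rw [← hx, max_eq_left (by linarith), max_eq_right (by linarith)]
      linarith
  have hgm : ∀ u ∈ sph k, (univ.filter fun x => g u x ≠ 0).card ≤ ⌈24 * s⌉₊ := by
    intro u hu
    obtain ⟨f, hf⟩ := maurey p hp (W u) (hW0 u hu) (hW1 u hu) (ε := 1 / L) (by positivity)
      (by rw [div_le_one hL0]; exact hL1) q hT
      (by
        rw [one_div, inv_pow, ← div_eq_mul_inv, lt_div_iff₀ (by positivity)]
        calc 4 * Real.log (2 * T) * L ^ 2 = 4 * L ^ 2 * Real.log (2 * T) := by ring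
          _ < (q : ℝ) := hq1)
    obtain ⟨y, hy⟩ := hrace (wf f) (Finset.mem_image_of_mem _ (mem_univ f))
    refine (Finset.card_le_card ?_).trans hy
    intro x hx
    simp only [mem_filter, mem_univ, true_and] at hx ⊢
    have hclose : ∀ x, abs (L * |(∑ i, p (f i) x) / q| - L * |z u x|) ≤ 1 := by
      intro x
      rw [← mul_sub, abs_mul, abs_of_pos hL0]
      have h1 := (abs_abs_sub_abs_le_abs_sub ((∑ i, p (f i) x) / q) (z u x)).trans (hf x)
      calc L * |(|(∑ i, p (f i) x) / q| - |z u x|)| ≤ L * (1 / L) :=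
            mul_le_mul_of_nonneg_left h1 hL0.le
        _ = 1 := by field_simp
    -- comparison of the weights
    have hup : ∀ x, φ x |z u x| ≤ Real.exp 1 * (wf f x / E x) := by
      intro x
      simp only [φ, wf]
      rw [← mul_div_assoc, ← Real.exp_add]
      refine div_le_div_of_nonneg_right (Real.exp_le_exp.2 ?_) (hE0 x).le
      have := (abs_le.1 (hclose x)).1
      linarith
    have hdown : ∀ x, wf f x / E x ≤ Real.exp 1 * φ x |z u x| := by
      intro x
      simp only [φ, wf]
      rw [← mul_div_assoc, ← Real.exp_add]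
      refine div_le_div_of_nonneg_right (Real.exp_le_exp.2 ?_) (hE0 x).le
      have := (abs_le.1 (hclose x)).2
      linarith
    have hbig : M u / 2 < φ x |z u x| := by
      by_contra h
      push Not at h
      apply hx
      simp only [g]
      have h1 : φ x (z u x) ≤ φ x |z u x| := hφmono x (le_abs_self _)
      have h2 : φ x (-z u x) ≤ φ x |z u x| := hφmono x (neg_le_abs _)
      rw [max_eq_left (by linarith), max_eq_left (by linarith), sub_zero]
    have h1 := hup x
    have h2 := hdown y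
    have h3 := hMge u y
    have he1 : Real.exp 1 < 2.7182818286 := Real.exp_one_lt_d9
    have he0 : 0 < Real.exp 1 := Real.exp_pos 1
    have h4 : wf f y / E y ≤ Real.exp 1 * M u :=
      h2.trans (mul_le_mul_of_nonneg_left h3 he0.le)
    have h5 : M u < 2 * (Real.exp 1 * (wf f x / E x)) := by linarith
    have hpos : 0 < wf f x / E x := div_pos (Real.exp_pos _) (hE0 x)
    calc wf f y / E y ≤ Real.exp 1 * M u := h4
      _ < Real.exp 1 * (2 * (Real.exp 1 * (wf f x / E x))) := mul_lt_mul_of_pos_left h5 he0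
      _ = (2 * Real.exp 1 ^ 2) * (wf f x / E x) := by ring
      _ ≤ 15 * (wf f x / E x) := by
          refine mul_le_mul_of_nonneg_right ?_ hpos.le
          nlinarith
  have hfin := few_labels k ⌈24 * s⌉₊ g hgc hgodd hgne hgm
  have h1 : ((k + 1 : ℕ) : ℝ) ≤ (⌈24 * s⌉₊ : ℝ) := by exact_mod_cast hfin
  have h2 := Nat.ceil_lt_add_one (a := 24 * s) (by positivity)
  push_cast at h1
  have h3 : s ≤ 1 + Real.log 4 + (4 * L ^ 2 * Real.log (2 * T) + 1) * Real.log K := by
    rw [hs]
    have := mul_le_mul_of_nonneg_right hq2 hlogK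
    linarith
  linarith

end GHDRace
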