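import Pool.Agent.Lib.GHDRace.Lam
import Pool.Agent.Lib.GHDRace.Main

/-!
# Total completions of the Gap Hamming Distance matrix with few distinct rows and columns
-/

open Finset

namespace GHDRace

/-- sign of a Boolean -/
def sgn (b : Bool) : ℝ := if b then 1 else -1

lemma abs_sgn (b : Bool) : |sgn b| = 1 := by cases b <;> simp [sgn]

/-- complement of a point of the cube -/
def cpl {n : ℕ} (x : Fin n → Bool) : Fin n → Bool := fun i => !x i

@[simp] lemma cpl_cpl {n : ℕ} (x : Fin n → Bool) : cpl (cpl x) = x := by
  funext i; simp [cpl]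

/-- complementation as an equivalence -/
def cplE (n : ℕ) : (Fin n → Bool) ≃ (Fin n → Bool) := ⟨cpl, cpl, cpl_cpl, cpl_cpl⟩

lemma hammingDist_cpl {n : ℕ} (x y : Fin n → Bool) :
    hammingDist (cpl x) y = n - hammingDist x y := by
  classical
  have h : hammingDist (cpl x) y + hammingDist x y = n := by
    unfold hammingDist
    have h1 : (univ.filter fun i => cpl x i ≠ y i) = (univ.filter fun i => ¬ (x i ≠ y i)) := by
      refine Finset.filter_congr fun i _ => ?_
      simp only [cpl]
      cases x i <;> cases y i <;> simp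
    rw [h1, add_comm, Finset.card_filter_add_card_filter_not]
    simp
  omega

/-- product weights -/
noncomputable def wt {n : ℕ} (l : Fin n → ℝ) (x : Fin n → Bool) : ℝ :=
  ∏ i, if x i then l i else 1 - l i

lemma wt_nonneg {n : ℕ} {l : Fin n → ℝ} (hl : ∀ i, 0 ≤ l i ∧ l i ≤ 1) (x : Fin n → Bool) :
    0 ≤ wt l x := by
  refine Finset.prod_nonneg fun i _ => ?_
  split_ifs
  · exact (hl i).1
  · linarith [(hl i).2]

lemma sum_wt {n : ℕ} (l : Fin n → ℝ) : ∑ x, wt l x = 1 := by
  classical
  have h := Finset.prod_univ_sum (t := fun _ : Fin n => (univ : Finset Bool))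
    (f := fun i b => if b then l i else 1 - l i)
  rw [Fintype.piFinset_univ] at h
  unfold wt
  rw [← h]
  refine Finset.prod_eq_one fun i _ => ?_
  simp

lemma wt_cpl {n : ℕ} {l l' : Fin n → ℝ} (h : ∀ i, l' i = 1 - l i) (x : Fin n → Bool) :
    wt l' (cpl x) = wt l x := by
  refine Finset.prod_congr rfl fun i _ => ?_
  simp only [cpl, h]
  cases x i <;> simp

lemma wt_ne_zero {n : ℕ} {l : Fin n → ℝ} {x : Fin n → Bool} (h : wt l x ≠ 0) (i : Fin n) :
    (l i = 0 → x i = false) ∧ (l i = 1 → x i = true) := by
  have h1 := Finset.prod_ne_zero_iff.1 h i (mem_univ i)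
  constructor
  · intro h2
    cases hx : x i
    · rfl
    · rw [hx, h2] at h1; simp at h1
  · intro h2
    cases hx : x i
    · rw [hx, h2] at h1; simp at h1
    · rfl

/-- **Index bound for completions.** -/
theorem completion_bound (n k : ℕ) (A : (Fin n → Bool) → (Fin n → Bool) → Bool)
    (h1 : ∀ x y : Fin n → Bool, hammingDist x y ≤ k → A x y = true)
    (h2 : ∀ x y : Fin n → Bool, n - k ≤ hammingDist x y → A x y = false) :
    (k : ℝ) + 1 ≤ 24 * (1 + Real.log 4 +
      (4 * (1 + Real.log (2 * (univ.image fun (y x : Fin n → Bool) => A x y).card)) ^ 2 *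
      Real.log (2 * (univ.image fun (y x : Fin n → Bool) => A x y).card) + 1) *
      Real.log (2 * (univ.image A).card)) + 1 := by
  classical
  obtain ⟨lam, hlc, hl01, hlneg, hlk⟩ := exists_lam k n
  set 𝒞 := univ.image fun (y x : Fin n → Bool) => A x y with h𝒞
  set ℛ := univ.image A with hℛ
  have hchoose : ∀ c : {c // c ∈ 𝒞}, ∃ y, (fun x => A x y) = c.val := by
    intro c
    obtain ⟨y, _, hy⟩ := Finset.mem_image.1 c.2
    exact ⟨y, hy⟩
  choose yc hyc using hchoose
  let p : {r // r ∈ ℛ} × Bool → {c // c ∈ 𝒞} → ℝ := fun r c => sgn r.2 * sgn (r.1.val (yc c))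
  let W : (Fin (k + 1) → ℝ) → {r // r ∈ ℛ} × Bool → ℝ := fun u r =>
    ∑ x, wt (lam u) x * (1 / 2 * (if (if r.2 then A x else A (cpl x)) = r.1.val then 1 else 0))
  have hz : ∀ u c, ∑ r, W u r * p r c =
      ∑ x, wt (lam u) x * (1 / 2 * (sgn (A x (yc c)) - sgn (A (cpl x) (yc c)))) := by
    intro u c
    have hin : ∀ x' : Fin n → Bool,
        ∑ r : {r // r ∈ ℛ}, (if A x' = r.val then (1 : ℝ) else 0) * sgn (r.val (yc c)) =
        sgn (A x' (yc c)) := by
      intro x'
      rw [Finset.sum_eq_single (⟨A x', Finset.mem_image_of_mem _ (mem_univ _)⟩ : {r // r ∈ ℛ})]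
      · simp
      · intro r _ hr
        rw [if_neg, zero_mul]
        intro h
        exact hr (Subtype.ext h.symm)
      · intro h; exact absurd (mem_univ _) h
    calc ∑ r, W u r * p r c = ∑ r : {r // r ∈ ℛ} × Bool, ∑ x, wt (lam u) x * (1 / 2 *
          ((if (if r.2 then A x else A (cpl x)) = r.1.val then 1 else 0) *
          (sgn r.2 * sgn (r.1.val (yc c))))) := by
          refine Finset.sum_congr rfl fun r _ => ?_
          simp only [W, p]
          rw [Finset.sum_mul]
          refine Finset.sum_congr rfl fun x _ => ?_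
          ring
      _ = ∑ x, ∑ r : {r // r ∈ ℛ} × Bool, wt (lam u) x * (1 / 2 *
          ((if (if r.2 then A x else A (cpl x)) = r.1.val then 1 else 0) *
          (sgn r.2 * sgn (r.1.val (yc c))))) := Finset.sum_comm
      _ = _ := by
          refine Finset.sum_congr rfl fun x _ => ?_
          rw [← Finset.mul_sum, ← Finset.mul_sum, Fintype.sum_prod_type_right]
          congr 2
          rw [Fintype.sum_bool]
          have e1 : ∑ r : {r // r ∈ ℛ}, (if (if (true : Bool) = true then A x else A (cpl x)) = r.val
              then (1 : ℝ) else 0) * (sgn true * sgn (r.val (yc c))) = sgn (A x (yc c)) := by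
            rw [← hin x]
            refine Finset.sum_congr rfl fun r _ => ?_
            have hs : sgn true = 1 := by simp [sgn]
            rw [hs, one_mul, if_pos rfl]
          have e2 : ∑ r : {r // r ∈ ℛ}, (if (if (false : Bool) = true then A x else A (cpl x)) = r.val
              then (1 : ℝ) else 0) * (sgn false * sgn (r.val (yc c))) =
              - sgn (A (cpl x) (yc c)) := by
            rw [← hin (cpl x), ← Finset.sum_neg_distrib]
            refine Finset.sum_congr rfl fun r _ => ?_
            have hs : sgn false = -1 := by simp [sgn]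
            rw [hs, if_neg Bool.false_ne_true]
            ring
          rw [e1, e2]
          ring
  have hW1 : ∀ u, ∑ r, W u r = 1 := by
    intro u
    have hin : ∀ x' : Fin n → Bool,
        ∑ r : {r // r ∈ ℛ}, (if A x' = r.val then (1 : ℝ) else 0) = 1 := by
      intro x'
      rw [Finset.sum_eq_single (⟨A x', Finset.mem_image_of_mem _ (mem_univ _)⟩ : {r // r ∈ ℛ})]
      · simp
      · intro r _ hr
        rw [if_neg]
        intro h
        exact hr (Subtype.ext h.symm)
      · intro h; exact absurd (mem_univ _) h
    simp only [W]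
    rw [Finset.sum_comm]
    refine Eq.trans (Finset.sum_congr rfl fun x _ => ?_) (sum_wt (lam u))
    rw [← Finset.mul_sum, ← Finset.mul_sum, Fintype.sum_prod_type_right, Fintype.sum_bool]
    have e1 : ∑ r : {r // r ∈ ℛ}, (if (if (true : Bool) = true then A x else A (cpl x)) = r.val
        then (1 : ℝ) else 0) = 1 := by
      rw [if_pos rfl]; exact hin x
    have e2 : ∑ r : {r // r ∈ ℛ}, (if (if (false : Bool) = true then A x else A (cpl x)) = r.val
        then (1 : ℝ) else 0) = 1 := by
      rw [if_neg Bool.false_ne_true]; exact hin (cpl x)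
    rw [e1, e2]
    ring
  have hcard : (Fintype.card ({r // r ∈ ℛ} × Bool) : ℝ) = 2 * ℛ.card := by
    rw [Fintype.card_prod, Fintype.card_coe, Fintype.card_bool]
    push_cast
    ring
  have hcard' : (Fintype.card {c // c ∈ 𝒞} : ℝ) = 𝒞.card := by
    rw [Fintype.card_coe]
  have key := race_main p ?_ k W ?_ ?_ ?_ ?_ ?_
  · rw [hcard, hcard'] at key
    exact key
  · intro r c
    simp only [p]
    rw [abs_mul, abs_sgn, abs_sgn, mul_one]
  · intro u _ r
    refine Finset.sum_nonneg fun x _ => mul_nonneg (wt_nonneg (hl01 u) x) ?_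
    split_ifs <;> norm_num
  · intro u _; exact hW1 u
  · refine Continuous.continuousOn ?_
    refine continuous_pi fun c => ?_
    simp only [hz]
    refine continuous_finset_sum _ fun x _ => Continuous.mul ?_ continuous_const
    unfold wt
    refine continuous_finset_prod _ fun i _ => ?_
    have hi : Continuous fun u => lam u i := (continuous_apply i).comp hlc
    by_cases hx : x i
    · simp only [hx, if_true]; exact hi
    · simp only [hx]; exact continuous_const.sub hi
  · intro u _ c
    rw [hz, hz, ← Finset.sum_neg_distrib]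
    rw [← Equiv.sum_comp (cplE n)]
    refine Finset.sum_congr rfl fun x _ => ?_
    show wt (lam (-u)) (cpl x) * (1 / 2 * (sgn (A (cpl x) (yc c)) -
      sgn (A (cpl (cpl x)) (yc c)))) = _
    rw [wt_cpl (hlneg u), cpl_cpl]
    ring
  · intro u hu
    let y : Fin n → Bool := fun i => decide (1 / 2 < lam u i)
    refine ⟨⟨fun x => A x y, Finset.mem_image_of_mem _ (mem_univ y)⟩, ?_⟩
    rw [hz]
    have hval : ∀ x, A x (yc ⟨fun x => A x y, Finset.mem_image_of_mem _ (mem_univ y)⟩) = A x y :=
      fun x => congrFun (hyc ⟨fun x => A x y, Finset.mem_image_of_mem _ (mem_univ y)⟩) x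
    have hx : ∀ x, wt (lam u) x * (1 / 2 * (sgn (A x (yc ⟨fun x => A x y,
        Finset.mem_image_of_mem _ (mem_univ y)⟩)) - sgn (A (cpl x) (yc ⟨fun x => A x y,
        Finset.mem_image_of_mem _ (mem_univ y)⟩)))) = wt (lam u) x := by
      intro x
      rw [hval, hval]
      by_cases h0 : wt (lam u) x = 0
      · rw [h0, zero_mul]
      · have hd : hammingDist x y ≤ k := by
          refine le_trans ?_ (hlk u hu)
          unfold hammingDist
          refine Finset.card_le_card fun i hi => ?_
          simp only [mem_filter, mem_univ, true_and] at hi ⊢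
          obtain ⟨hw0, hw1⟩ := wt_ne_zero h0 i
          constructor
          · intro h3
            apply hi
            rw [hw0 h3]
            simp only [y, h3]
            norm_num
          · intro h3
            apply hi
            rw [hw1 h3]
            simp only [y, h3]
            norm_num
        have hA1 : A x y = true := h1 x y hd
        have hA2 : A (cpl x) y = false := by
          apply h2
          rw [hammingDist_cpl]
          omega
        rw [hA1, hA2]
        simp only [sgn]
        norm_num
    rw [Finset.sum_congr rfl fun x _ => hx x, sum_wt, abs_one]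

end GHDRace
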