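import Pool.Agent.Lib.GHDRace.Comp
import Pool.Agent.Lib.GHDRace.VC

/-!
# Completions of Gap Hamming Distance with few distinct rows or columns: final bounds
-/

open Finset

namespace GHDRace

lemma numeric {l r c : ℝ} (hl : 0.69 ≤ l) (hr : 0.69 ≤ r) (hc : c ≤ 1.39) :
    24 * (1 + c + (4 * (1 + l) ^ 2 * l + 1) * r) ≤ 96 * r * (1 + l) ^ 3 := by
  have h1 : 2.8 ≤ (1 + l) ^ 2 := by nlinarith
  have h2 : 2.8 * r ≤ (1 + l) ^ 2 * r := mul_le_mul_of_nonneg_right h1 (by linarith)
  have h3 : 96 * r * (1 + l) ^ 3 = 24 * ((4 * (1 + l) ^ 2 * l) * r) + 96 * ((1 + l) ^ 2 * r) := by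
    ring
  rw [h3]
  have h4 : 24 * (1 + c + (4 * (1 + l) ^ 2 * l + 1) * r) =
      24 * (1 + c) + 24 * r + 24 * ((4 * (1 + l) ^ 2 * l) * r) := by ring
  rw [h4]
  nlinarith

lemma log_two_gt : (0.69 : ℝ) ≤ Real.log 2 := by have := Real.log_two_gt_d9; linarith

lemma log_two_lt : Real.log 2 ≤ 0.6932 := by have := Real.log_two_lt_d9; linarith

lemma log_four_eq : Real.log 4 = 2 * Real.log 2 := by
  rw [show (4 : ℝ) = 2 ^ 2 by norm_num, Real.log_pow]; push_cast; ring

/-- the final statement -/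
theorem final (n k : ℕ) (hkn : 2 * k < n) (A : (Fin n → Bool) → (Fin n → Bool) → Bool)
    (h1 : ∀ x y : Fin n → Bool, hammingDist x y ≤ k → A x y = true)
    (h2 : ∀ x y : Fin n → Bool, n - k ≤ hammingDist x y → A x y = false)
    (R T : ℕ) (hR : R = (univ.image A).card)
    (hT : T = (univ.image fun (y x : Fin n → Bool) => A x y).card) :
    (k : ℝ) ≤ 96 * Real.log (2 * R) * (1 + Real.log (2 * T)) ^ 3 ∧
    ∀ d : ℕ, (∀ S : Finset (Fin n → Bool), (∀ B ⊆ S, ∃ x, ∀ y ∈ S, (A x y = true ↔ y ∈ B)) →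
        S.card ≤ d) →
      (k : ℝ) ≤ 96 * (d + 1) * (1 + Real.log (2 * T)) ^ 4 ∧
      (k : ℝ) ≤ 3300 * 8 ^ d * Real.log (2 * R) ^ 4 := by
  classical
  have hR2 : 2 ≤ R := by
    rw [hR]
    refine Finset.one_lt_card.2 ⟨A (fun _ => true), Finset.mem_image_of_mem _ (mem_univ _),
      A (cpl fun _ => true), Finset.mem_image_of_mem _ (mem_univ _), ?_⟩
    intro h
    have e1 := h1 (fun _ : Fin n => true) (fun _ => true) (by simp)
    have e2 := h2 (cpl fun _ : Fin n => true) (fun _ => true) (by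
      rw [hammingDist_cpl]; simp)
    rw [h, e2] at e1
    exact Bool.false_ne_true e1
  have hT1 : 1 ≤ T := by
    rw [hT]
    exact Finset.card_pos.2 ⟨_, Finset.mem_image_of_mem _ (mem_univ (fun _ => true))⟩
  have hTr : (1 : ℝ) ≤ T := by exact_mod_cast hT1
  have hRr : (2 : ℝ) ≤ R := by exact_mod_cast hR2
  have hl : Real.log 2 ≤ Real.log (2 * T) := Real.log_le_log (by norm_num) (by linarith)
  have hr : Real.log 4 ≤ Real.log (2 * R) := Real.log_le_log (by norm_num) (by linarith)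
  have hb := completion_bound n k A h1 h2
  rw [← hR, ← hT] at hb
  have hlog2 := log_two_gt
  have hlog2' := log_two_lt
  have hlog4 := log_four_eq
  set l := Real.log (2 * T) with hldef
  set r := Real.log (2 * R) with hrdef
  have hl69 : 0.69 ≤ l := hlog2.trans hl
  have hr138 : 1.38 ≤ r := by rw [hlog4] at hr; linarith
  have hmain : (k : ℝ) ≤ 96 * r * (1 + l) ^ 3 := by
    have := numeric (c := Real.log 4) hl69 (by linarith : (0.69 : ℝ) ≤ r)
      (by rw [hlog4]; linarith)
    linarith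
  refine ⟨hmain, ?_⟩
  intro d hd
  have hd' : ∀ S : Finset (Fin n → Bool), Shat A S → S.card ≤ d := hd
  constructor
  · have hS := sauer A d hd'
    rw [← hR, ← hT] at hS
    have hS' : (R : ℝ) ≤ (T + 1 : ℝ) ^ d := by exact_mod_cast hS
    have h3 : r ≤ (d + 1) * l := by
      have h4 : Real.log R ≤ d * Real.log (T + 1) := by
        rw [← Real.log_pow]
        exact Real.log_le_log (by linarith) hS'
      have h5 : Real.log (T + 1) ≤ l := Real.log_le_log (by linarith) (by linarith)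
      rw [hrdef, Real.log_mul (by norm_num) (by linarith)]
      have h6 : (d : ℝ) * Real.log (T + 1) ≤ d * l :=
        mul_le_mul_of_nonneg_left h5 (Nat.cast_nonneg d)
      linarith
    have h7 : 0 ≤ (1 + l) ^ 3 := by positivity
    calc (k : ℝ) ≤ 96 * r * (1 + l) ^ 3 := hmain
      _ ≤ 96 * ((d + 1) * l) * (1 + l) ^ 3 := by
          refine mul_le_mul_of_nonneg_right ?_ h7
          linarith
      _ ≤ 96 * ((d + 1) * (1 + l)) * (1 + l) ^ 3 := by
          refine mul_le_mul_of_nonneg_right ?_ h7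
          have : (0 : ℝ) ≤ (d : ℝ) + 1 := by positivity
          nlinarith
      _ = _ := by ring
  · have hS := sauer_dual A d hd'
    rw [← hR, ← hT] at hS
    have hS' : (T : ℝ) ≤ (R + 1 : ℝ) ^ (2 ^ (d + 1)) := by exact_mod_cast hS
    set D : ℝ := 2 ^ (d + 1) with hD
    have hD2 : 2 ≤ D := by
      rw [hD, pow_succ]
      have : (1 : ℝ) ≤ 2 ^ d := one_le_pow₀ (by norm_num)
      linarith
    have h3 : l ≤ Real.log 2 + D * r := by
      have h4 : Real.log T ≤ D * Real.log (R + 1) := by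
        have : ((2 ^ (d + 1) : ℕ) : ℝ) = D := by rw [hD]; push_cast; rfl
        rw [← this, ← Real.log_pow]
        exact Real.log_le_log (by linarith) hS'
      have h5 : Real.log (R + 1) ≤ r := Real.log_le_log (by linarith) (by linarith)
      rw [hldef, Real.log_mul (by norm_num) (by linarith)]
      have h6 : D * Real.log (R + 1) ≤ D * r := mul_le_mul_of_nonneg_left h5 (by linarith)
      linarith
    have h8 : 1 + l ≤ 1.62 * (D * r) := by
      have h9 : 2 * 1.38 ≤ D * r := mul_le_mul hD2 hr138 (by norm_num) (by linarith)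
      linarith
    have h10 : (1 + l) ^ 3 ≤ (1.62 * (D * r)) ^ 3 := pow_le_pow_left₀ (by linarith) h8 3
    have h11 : D ^ 3 = 8 * 8 ^ d := by
      rw [hD, ← pow_mul, mul_comm (d + 1) 3, pow_mul, pow_succ]
      norm_num
      ring
    calc (k : ℝ) ≤ 96 * r * (1 + l) ^ 3 := hmain
      _ ≤ 96 * r * (1.62 * (D * r)) ^ 3 := mul_le_mul_of_nonneg_left h10 (by linarith)
      _ = (96 * 1.62 ^ 3) * D ^ 3 * r ^ 4 := by ring
      _ = (96 * 1.62 ^ 3 * 8) * (8 ^ d * r ^ 4) := by rw [h11]; ring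
      _ ≤ 3300 * (8 ^ d * r ^ 4) := by
          refine mul_le_mul_of_nonneg_right (by norm_num) (by positivity)
      _ = _ := by ring

end GHDRace
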