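import Pool.Agent.Lib.GHDRace.BUS

/-!
# Antipodal maps with few nonzero labels
-/

open Finset

namespace GHDRace

/-- the `ℓ¹` unit sphere -/
def sph (k : ℕ) : Set (Fin (k + 1) → ℝ) := {u | ∑ i, |u i| = 1}

lemma sph_nonempty (k : ℕ) : (sph k).Nonempty := by
  classical
  refine ⟨Pi.single 0 1, ?_⟩
  show ∑ i, |(Pi.single (0 : Fin (k + 1)) (1 : ℝ) : Fin (k + 1) → ℝ) i| = 1
  rw [Finset.sum_eq_single 0]
  · simp
  · intro b _ hb; simp [hb]
  · simp

lemma neg_mem_sph {k : ℕ} {u : Fin (k + 1) → ℝ} (h : u ∈ sph k) : -u ∈ sph k := by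
  simpa [sph] using h

/-- A vector with at most `k` nonzero coordinates killed by all power sums of distinct nodes of
exponent less than `k` is zero. -/
lemma vandermonde_kill {ι : Type*} [Fintype ι] (a : ι → ℝ) (ha : Function.Injective a)
    (k : ℕ) (g : ι → ℝ) (hk : (univ.filter fun x => g x ≠ 0).card ≤ k)
    (h : ∀ j : Fin k, ∑ x, a x ^ (j : ℕ) * g x = 0) : ∀ x, g x = 0 := by
  classical
  intro x0
  by_contra hx0
  set Y := univ.filter fun x => g x ≠ 0 with hY
  have hx0Y : x0 ∈ Y := by simp [hY, hx0]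
  set P : Polynomial ℝ := ∏ y ∈ Y.erase x0, (Polynomial.X - Polynomial.C (a y)) with hP
  have hdeg : P.natDegree < k := by
    rw [hP, Polynomial.natDegree_prod_of_monic _ _ (fun y _ => Polynomial.monic_X_sub_C _)]
    simp only [Polynomial.natDegree_X_sub_C, sum_const, smul_eq_mul, mul_one]
    rw [card_erase_of_mem hx0Y]
    have : 0 < Y.card := Finset.card_pos.2 ⟨x0, hx0Y⟩
    omega
  have hsum : ∑ x, P.eval (a x) * g x = 0 := by
    have h1 : ∀ x, P.eval (a x) * g x = ∑ j ∈ range k, P.coeff j * (a x ^ j * g x) := by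
      intro x
      rw [Polynomial.eval_eq_sum_range' hdeg, Finset.sum_mul]
      exact Finset.sum_congr rfl fun j _ => by ring
    rw [Finset.sum_congr rfl fun x _ => h1 x, Finset.sum_comm]
    refine Finset.sum_eq_zero fun j hj => ?_
    rw [← Finset.mul_sum, h ⟨j, Finset.mem_range.1 hj⟩, mul_zero]
  have h2 : ∑ x, P.eval (a x) * g x = P.eval (a x0) * g x0 := by
    refine Finset.sum_eq_single x0 (fun x _ hx => ?_) (fun h => absurd (mem_univ _) h)
    by_cases hgx : g x = 0
    · rw [hgx, mul_zero]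
    · have : x ∈ Y.erase x0 := by simp [hY, hgx, hx]
      rw [hP, Polynomial.eval_prod, Finset.prod_eq_zero this (by simp), zero_mul]
  rw [h2] at hsum
  rcases mul_eq_zero.1 hsum with h3 | h3
  · rw [hP, Polynomial.eval_prod, Finset.prod_eq_zero_iff] at h3
    obtain ⟨y, hy, h4⟩ := h3
    simp only [Polynomial.eval_sub, Polynomial.eval_X, Polynomial.eval_C] at h4
    have h5 : a x0 = a y := by linarith
    exact (Finset.mem_erase.1 hy).1 (ha h5).symm
  · exact hx0 h3

/-- An odd continuous nowhere zero map from the `k`-sphere to `ℝ^ι` has a value with more than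
`k` nonzero coordinates. -/
theorem few_labels {ι : Type*} [Fintype ι] (k m : ℕ)
    (g : (Fin (k + 1) → ℝ) → ι → ℝ) (hg : ContinuousOn g (sph k))
    (hodd : ∀ u ∈ sph k, g (-u) = - g u)
    (hne : ∀ u ∈ sph k, ∃ x, g u x ≠ 0)
    (hm : ∀ u ∈ sph k, (univ.filter fun x => g u x ≠ 0).card ≤ m) : k + 1 ≤ m := by
  classical
  by_contra hlt
  push Not at hlt
  have hmk : m ≤ k := by omega
  obtain ⟨u0, hu0⟩ := sph_nonempty k
  obtain ⟨x0, hx0⟩ := hne u0 hu0
  have hm1 : 1 ≤ m := le_trans (Finset.card_pos.2 ⟨x0, by simp [hx0]⟩) (hm u0 hu0)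
  obtain ⟨k', rfl⟩ : ∃ k', k = k' + 1 := ⟨k - 1, by omega⟩
  let a : ι → ℝ := fun x => ((Fintype.equivFin ι x : ℕ) : ℝ)
  have ha : Function.Injective a := by
    intro x y hxy
    have : (Fintype.equivFin ι x : ℕ) = (Fintype.equivFin ι y : ℕ) := Nat.cast_injective (R := ℝ) hxy
    exact (Fintype.equivFin ι).injective (Fin.ext this)
  let f : (Fin (k' + 2) → ℝ) → (Fin (k' + 1) → ℝ) := fun u j => ∑ x, a x ^ (j : ℕ) * g u x
  obtain ⟨u, hu, hfu⟩ := borsuk_ulam k' f
    (by
      refine continuousOn_pi.2 fun j => ?_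
      refine continuousOn_finset_sum _ fun x _ => ?_
      exact continuousOn_const.mul (continuousOn_pi.1 hg x))
    (by
      intro u hu
      funext j
      simp only [f, hodd u hu, Pi.neg_apply, mul_neg, Finset.sum_neg_distrib])
  obtain ⟨x, hx⟩ := hne u hu
  exact hx (vandermonde_kill a ha (k' + 1) (g u) ((hm u hu).trans hmk)
    (fun j => congrFun hfu j) x)

end GHDRace
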