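import Pool.Agent.Lib.GHDRace.Labels

/-!
# A continuous antipodal family of product measures on the cube with few fractional coordinates
-/

open Finset

namespace GHDRace

/-- clamping -/
noncomputable def clamp (t : ℝ) : ℝ := max 0 (min 1 t)

lemma clamp_nonneg (t : ℝ) : 0 ≤ clamp t := le_max_left _ _

lemma clamp_le_one (t : ℝ) : clamp t ≤ 1 := max_le zero_le_one (min_le_left _ _)

lemma clamp_neg (t : ℝ) : clamp (1 / 2 - t) = 1 - clamp (1 / 2 + t) := by
  unfold clamp
  rcases le_total (1 / 2 + t) 0 with h | h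
  · rw [min_eq_left (by linarith), max_eq_right zero_le_one, min_eq_right (by linarith),
      max_eq_left h, sub_zero]
  · rcases le_total (1 / 2 + t) 1 with h' | h'
    · rw [min_eq_right (by linarith), max_eq_right (by linarith), min_eq_right h', max_eq_right h]
      ring
    · rw [min_eq_right (by linarith), max_eq_left (by linarith), min_eq_left h',
        max_eq_right zero_le_one, sub_self]

lemma clamp_frac {t : ℝ} (h0 : clamp t ≠ 0) (h1 : clamp t ≠ 1) : 0 < t ∧ t < 1 := by
  unfold clamp at h0 h1
  constructor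
  · by_contra h
    push Not at h
    exact h0 (by rw [min_eq_right (by linarith), max_eq_left h])
  · by_contra h
    push Not at h
    exact h1 (by rw [min_eq_left h, max_eq_right zero_le_one])

lemma continuous_clamp : Continuous clamp := by unfold clamp; fun_prop

lemma isCompact_sph (k : ℕ) : IsCompact (sph k) := by
  refine Metric.isCompact_of_isClosed_isBounded ?_ ?_
  · exact isClosed_eq (by fun_prop) continuous_const
  · refine (Metric.isBounded_closedBall (x := (0 : Fin (k + 1) → ℝ)) (r := 1)).subset ?_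
    intro u hu
    rw [mem_closedBall_zero_iff, pi_norm_le_iff_of_nonneg zero_le_one]
    intro i
    rw [Real.norm_eq_abs, ← (show ∑ i, |u i| = 1 from hu)]
    exact Finset.single_le_sum (f := fun i => |u i|) (fun i _ => abs_nonneg _) (mem_univ i)

/-- values of the polynomial with coefficients `u` -/
noncomputable def val (k : ℕ) (u : Fin (k + 1) → ℝ) (i : ℕ) : ℝ := ∑ j, u j * (i : ℝ) ^ (j : ℕ)

lemma val_neg (k : ℕ) (u : Fin (k + 1) → ℝ) (i : ℕ) : val k (-u) i = - val k u i := by
  simp [val, Finset.sum_neg_distrib]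

lemma continuous_val (k i : ℕ) : Continuous fun u => val k u i := by unfold val; fun_prop

lemma val_ne {k n : ℕ} {I : Finset (Fin n)} (hI : I.card = k + 1) {u : Fin (k + 1) → ℝ}
    (hu : u ∈ sph k) : ∃ i ∈ I, val k u i ≠ 0 := by
  classical
  by_contra hcon
  push Not at hcon
  let P : Polynomial ℝ := ∑ j : Fin (k + 1), Polynomial.C (u j) * Polynomial.X ^ (j : ℕ)
  have hPeval : ∀ t : ℝ, P.eval t = ∑ j : Fin (k + 1), u j * t ^ (j : ℕ) := by
    intro t
    simp [P, Polynomial.eval_finset_sum]
  have hdeg : P.degree < (k + 1 : ℕ) := by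
    refine lt_of_le_of_lt (Polynomial.degree_sum_le _ _) ?_
    rw [Finset.sup_lt_iff (by exact WithBot.bot_lt_coe _)]
    intro j _
    refine lt_of_le_of_lt (Polynomial.degree_C_mul_X_pow_le _ _) ?_
    exact_mod_cast j.2
  have hP0 : P = 0 := by
    refine Polynomial.eq_zero_of_degree_lt_of_eval_finset_eq_zero
      (I.image fun i : Fin n => ((i : ℕ) : ℝ)) ?_ ?_
    · rw [Finset.card_image_of_injective _ (by
        intro i j hij
        exact Fin.ext (Nat.cast_injective (R := ℝ) hij)), hI]
      exact hdeg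
    · intro t ht
      obtain ⟨i, hi, rfl⟩ := Finset.mem_image.1 ht
      rw [hPeval]
      exact hcon i hi
  have hcoef : ∀ j, u j = 0 := by
    intro j
    have := congrArg (fun Q => Polynomial.coeff Q (j : ℕ)) hP0
    simp only [P, Polynomial.finset_sum_coeff, Polynomial.coeff_C_mul, Polynomial.coeff_X_pow,
      Polynomial.coeff_zero] at this
    rw [Finset.sum_eq_single j] at this
    · simpa using this
    · intro b _ hb
      rw [if_neg, mul_zero]
      intro h
      exact hb (Fin.ext h.symm)
    · intro h; exact absurd (mem_univ _) h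
  have : (∑ i, |u i|) = 0 := Finset.sum_eq_zero fun i _ => by rw [hcoef i, abs_zero]
  rw [show ∑ i, |u i| = 1 from hu] at this
  exact one_ne_zero this

lemma exists_delta (k n : ℕ) (s : Finset (Finset (Fin n))) (hs : ∀ I ∈ s, I.card = k + 1) :
    ∃ δ : ℝ, 0 < δ ∧ ∀ I ∈ s, ∀ u ∈ sph k, δ ≤ ∑ i ∈ I, |val k u i| := by
  classical
  induction s using Finset.induction_on with
  | empty => exact ⟨1, one_pos, by simp⟩
  | insert I s _ ih =>
    obtain ⟨δ, hδ, h⟩ := ih fun J hJ => hs J (mem_insert_of_mem hJ)
    obtain ⟨u0, hu0, hmin⟩ := (isCompact_sph k).exists_isMinOn (sph_nonempty k)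
      (f := fun u => ∑ i ∈ I, |val k u i|)
      (Continuous.continuousOn (continuous_finset_sum _ fun i _ => (continuous_val k i).abs))
    have hpos : 0 < ∑ i ∈ I, |val k u0 i| := by
      obtain ⟨i, hi, hne⟩ := val_ne (hs I (mem_insert_self _ _)) hu0
      exact Finset.sum_pos' (fun i _ => abs_nonneg _) ⟨i, hi, abs_pos.2 hne⟩
    refine ⟨min δ (∑ i ∈ I, |val k u0 i|), lt_min hδ hpos, ?_⟩
    intro J hJ u hu
    rcases mem_insert.1 hJ with rfl | hJ
    · exact (min_le_right _ _).trans (hmin hu)
    · exact (min_le_left _ _).trans (h J hJ u hu)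

/-- the family of product measures -/
theorem exists_lam (k n : ℕ) : ∃ lam : (Fin (k + 1) → ℝ) → Fin n → ℝ, Continuous lam ∧
    (∀ u i, 0 ≤ lam u i ∧ lam u i ≤ 1) ∧ (∀ u i, lam (-u) i = 1 - lam u i) ∧
    ∀ u ∈ sph k, (univ.filter fun i => lam u i ≠ 0 ∧ lam u i ≠ 1).card ≤ k := by
  classical
  obtain ⟨δ, hδ, h⟩ := exists_delta k n (univ.powersetCard (k + 1))
    (fun I hI => (mem_powersetCard.1 hI).2)
  set η : ℝ := δ / (k + 1) with hη
  have hη0 : 0 < η := by positivity
  refine ⟨fun u i => clamp (1 / 2 + val k u i / (2 * η)), ?_, ?_, ?_, ?_⟩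
  · refine continuous_pi fun i => continuous_clamp.comp ?_
    exact continuous_const.add ((continuous_val k i).div_const _)
  · intro u i; exact ⟨clamp_nonneg _, clamp_le_one _⟩
  · intro u i
    show clamp (1 / 2 + val k (-u) i / (2 * η)) = 1 - clamp (1 / 2 + val k u i / (2 * η))
    rw [val_neg, neg_div, ← sub_eq_add_neg, clamp_neg]
  · intro u hu
    by_contra hcon
    push Not at hcon
    obtain ⟨I, hIsub, hI⟩ := Finset.exists_subset_card_eq (Nat.succ_le_of_lt hcon)
    have h1 := h I (mem_powersetCard.2 ⟨subset_univ _, hI⟩) u hu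
    have h2 : ∑ i ∈ I, |val k u i| < ∑ i ∈ I, η := by
      refine Finset.sum_lt_sum_of_nonempty (Finset.card_pos.1 (by rw [hI]; omega)) fun i hi => ?_
      have h3 := (mem_filter.1 (hIsub hi)).2
      obtain ⟨h4, h5⟩ := clamp_frac h3.1 h3.2
      rw [abs_lt]
      have h6 : -1 < val k u i / η := by
        have : val k u i / (2 * η) = (val k u i / η) / 2 := by field_simp
        rw [this] at h4; linarith
      have h7 : val k u i / η < 1 := by
        have : val k u i / (2 * η) = (val k u i / η) / 2 := by field_simp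
        rw [this] at h5; linarith
      constructor
      · rw [lt_div_iff₀ hη0] at h6; linarith
      · rw [div_lt_iff₀ hη0] at h7; linarith
    rw [Finset.sum_const, hI, nsmul_eq_mul, hη] at h2
    have h8 : ((k + 1 : ℕ) : ℝ) * (δ / (k + 1)) = δ := by push_cast; field_simp
    rw [h8] at h2
    linarith

end GHDRace
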